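import Mathlib

set_option autoImplicit false

namespace Pool.Agent.H245Z.Kn

open Finset

/-- swapping each point of `X` with its image under an injective map into the complement -/
theorem swapPerm {α : Type*} (X : Set α) (h : α → α) (hinj : Set.InjOn h X)
    (hout : ∀ x ∈ X, h x ∉ X) :
    ∃ τ : Equiv.Perm α, (∀ x ∈ X, τ x = h x) ∧ (∀ x ∈ X, τ (h x) = x) ∧
      (∀ a, a ∉ X → (∀ x ∈ X, h x ≠ a) → τ a = a) := by
  classical
  let f : α → α := fun a =>
    if a ∈ X then h a else if hx : ∃ x ∈ X, h x = a then hx.choose else a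
  have f1 : ∀ x ∈ X, f x = h x := fun x hx => by simp [f, hx]
  have f2 : ∀ x ∈ X, f (h x) = x := fun x hx => by
    have hx' : ∃ y ∈ X, h y = h x := ⟨x, hx, rfl⟩
    simp only [f, if_neg (hout x hx), dif_pos hx']
    exact hinj hx'.choose_spec.1 hx hx'.choose_spec.2
  have f3 : ∀ a, a ∉ X → (∀ x ∈ X, h x ≠ a) → f a = a := fun a ha hb => by
    have hx' : ¬ ∃ y ∈ X, h y = a := fun ⟨y, hy, e⟩ => hb y hy e
    simp only [f, if_neg ha, dif_neg hx']
  have inv : Function.Involutive f := by
    intro a
    by_cases ha : a ∈ X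
    · rw [f1 a ha, f2 a ha]
    · by_cases hb : ∃ x ∈ X, h x = a
      · obtain ⟨x, hx, rfl⟩ := hb
        rw [f2 x hx, f1 x hx]
      · have : f a = a := f3 a ha (fun x hx e => hb ⟨x, hx, e⟩)
        rw [this, this]
  exact ⟨inv.toPerm, f1, f2, f3⟩

theorem vand (a b i j : ℕ) : a.choose i * b.choose j ≤ (a + b).choose (i + j) := by
  rw [Nat.add_choose_eq]
  exact Finset.single_le_sum (f := fun ij : ℕ × ℕ => a.choose ij.1 * b.choose ij.2)
    (fun _ _ => Nat.zero_le _) (a := (i, j)) (by simp)

theorem pow_le_choose_mul (a r : ℕ) : a ^ r ≤ (a * r).choose r := by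
  induction r with
  | zero => simp
  | succ r ih =>
    have := vand (a * r) a r 1
    rw [Nat.choose_one_right] at this
    calc a ^ (r + 1) = a ^ r * a := pow_succ _ _
      _ ≤ (a * r).choose r * a := Nat.mul_le_mul_right _ ih
      _ ≤ _ := by rw [Nat.mul_succ]; exact this

theorem choose_le_pow_mul (m x a D : ℕ) (h : m ≤ D * (x - a)) :
    m.choose a ≤ D ^ a * x.choose a := by
  have key : ∀ i, i ≤ a → m.descFactorial i ≤ D ^ i * x.descFactorial i := by
    intro i
    induction i with
    | zero => simp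
    | succ i ih =>
      intro hi
      rw [Nat.descFactorial_succ, Nat.descFactorial_succ, pow_succ]
      have h1 : m - i ≤ D * (x - i) :=
        (Nat.sub_le _ _).trans (h.trans (Nat.mul_le_mul_left _ (by omega)))
      calc (m - i) * m.descFactorial i ≤ (D * (x - i)) * (D ^ i * x.descFactorial i) :=
            Nat.mul_le_mul h1 (ih (by omega))
        _ = _ := by ring
  have := key a le_rfl
  rw [Nat.descFactorial_eq_factorial_mul_choose, Nat.descFactorial_eq_factorial_mul_choose] at this
  have h2 : a.factorial * m.choose a ≤ a.factorial * (D ^ a * x.choose a) := by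
    calc _ ≤ _ := this
      _ = _ := by ring
  exact Nat.le_of_mul_le_mul_left h2 (Nat.factorial_pos a)

theorem choose_le_pow_sub (m w u D : ℕ) (hu : u ≤ w) (hw : w ≤ m) (h : m ≤ D * (w - u)) :
    m.choose w ≤ D ^ u * (m - u).choose (w - u) := by
  have key : ∀ i, i ≤ u → m.choose w ≤ D ^ i * (m - i).choose (w - i) := by
    intro i
    induction i with
    | zero => simp
    | succ i ih =>
      intro hi
      refine (ih (by omega)).trans ?_
      rw [pow_succ, mul_assoc]
      refine Nat.mul_le_mul_left _ ?_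
      obtain ⟨a, ha⟩ : ∃ a, m - i = a + 1 := ⟨m - i - 1, by omega⟩
      obtain ⟨b, hb⟩ : ∃ b, w - i = b + 1 := ⟨w - i - 1, by omega⟩
      have ha' : m - (i + 1) = a := by omega
      have hb' : w - (i + 1) = b := by omega
      rw [ha, hb, ha', hb']
      have e := Nat.add_one_mul_choose_eq a b
      have h1 : a + 1 ≤ D * (b + 1) := by
        calc a + 1 ≤ m := by omega
          _ ≤ D * (w - u) := h
          _ ≤ D * (b + 1) := Nat.mul_le_mul_left _ (by omega)
      have h2 : (a + 1).choose (b + 1) * (b + 1) ≤ (D * a.choose b) * (b + 1) := by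
        rw [← e]
        calc (a + 1) * a.choose b ≤ (D * (b + 1)) * a.choose b := Nat.mul_le_mul_right _ h1
          _ = _ := by ring
      exact Nat.le_of_mul_le_mul_right h2 (by omega)
  exact key u le_rfl

/-- hypergeometric lower tail -/
theorem tail_num (m z w s : ℕ) (hm : 0 < m) (hz : z ≤ m) (hs : 2 * s ≤ w)
    (h : 2 * (2 * s) * m ≤ (z - 2 * s) * (w - 2 * s)) :
    (∑ i ∈ range (s + 1), z.choose i * (m - z).choose (w - i)) * 2 ^ s ≤ 2 * m.choose w := by
  set N : ℕ → ℕ := fun i => z.choose i * (m - z).choose (w - i) with hN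
  have step : ∀ i, i < 2 * s → 2 * N i ≤ N (i + 1) := by
    intro i hi
    have e1 := Nat.choose_succ_right_eq z i
    obtain ⟨b, hb⟩ : ∃ b, w - i = b + 1 := ⟨w - i - 1, by omega⟩
    have hb' : w - (i + 1) = b := by omega
    have e2 := Nat.choose_succ_right_eq (m - z) b
    have h1 : (m - z).choose (b + 1) * (b + 1) ≤ (m - z).choose b * m := by
      rw [e2]; exact Nat.mul_le_mul_left _ (by omega)
    have h2 : 2 * ((i + 1) * m) ≤ (z - i) * (b + 1) := by
      calc 2 * ((i + 1) * m) ≤ 2 * ((2 * s) * m) :=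
            Nat.mul_le_mul_left _ (Nat.mul_le_mul_right _ (by omega))
        _ = 2 * (2 * s) * m := by ring
        _ ≤ _ := h
        _ ≤ _ := Nat.mul_le_mul (by omega) (by omega)
    have h3 : (2 * N i) * ((i + 1) * m) ≤ N (i + 1) * ((i + 1) * m) := by
      simp only [hN, hb, hb']
      calc 2 * (z.choose i * (m - z).choose (b + 1)) * ((i + 1) * m)
          = (z.choose i * (m - z).choose (b + 1)) * (2 * ((i + 1) * m)) := by ring
        _ ≤ (z.choose i * (m - z).choose (b + 1)) * ((z - i) * (b + 1)) :=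
            Nat.mul_le_mul_left _ h2
        _ = (z.choose i * (z - i)) * ((m - z).choose (b + 1) * (b + 1)) := by ring
        _ ≤ (z.choose i * (z - i)) * ((m - z).choose b * m) := Nat.mul_le_mul_left _ h1
        _ = (z.choose (i + 1) * (i + 1)) * ((m - z).choose b * m) := by rw [e1]
        _ = _ := by ring
    exact Nat.le_of_mul_le_mul_right h3 (by positivity)
  have hsum : ∀ j, j ≤ 2 * s → ∑ i ∈ range (j + 1), N i ≤ 2 * N j := by
    intro j
    induction j with
    | zero => intro _; simp; omega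
    | succ j ih =>
      intro hj
      rw [sum_range_succ]
      have := ih (by omega)
      have := step j (by omega)
      omega
  have hpow : ∀ d, d ≤ s → N s * 2 ^ d ≤ N (s + d) := by
    intro d
    induction d with
    | zero => simp
    | succ d ih =>
      intro hd
      have := ih (by omega)
      have h2 := step (s + d) (by omega)
      rw [pow_succ, ← add_assoc, ← mul_assoc]
      omega
  have hv : N (s + s) ≤ m.choose w := by
    have := vand z (m - z) (s + s) (w - (s + s))
    rwa [show z + (m - z) = m by omega, show s + s + (w - (s + s)) = w by omega] at this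
  calc (∑ i ∈ range (s + 1), N i) * 2 ^ s ≤ (2 * N s) * 2 ^ s :=
        Nat.mul_le_mul_right _ (hsum s (by omega))
    _ = 2 * (N s * 2 ^ s) := by ring
    _ ≤ 2 * m.choose w := Nat.mul_le_mul_left _ ((hpow s le_rfl).trans hv)

theorem tail_card {Ω : Type*} [Fintype Ω] [DecidableEq Ω] (Z : Finset Ω) (w s : ℕ) :
    #((univ : Finset (Finset Ω)).filter fun A => #A = w ∧ #(A ∩ Z) ≤ s) ≤
      ∑ i ∈ range (s + 1), (#Z).choose i * (Fintype.card Ω - #Z).choose (w - i) := by
  have : ((univ : Finset (Finset Ω)).filter fun A => #A = w ∧ #(A ∩ Z) ≤ s) ⊆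
      (range (s + 1)).biUnion fun i =>
        ((powersetCard i Z) ×ˢ (powersetCard (w - i) Zᶜ)).image fun p => p.1 ∪ p.2 := by
    intro A hA
    simp only [mem_filter, mem_univ, true_and] at hA
    simp only [mem_biUnion, mem_range, mem_image, mem_product, mem_powersetCard]
    refine ⟨#(A ∩ Z), by omega, (A ∩ Z, A \ Z), ⟨⟨inter_subset_right, rfl⟩, ?_, ?_⟩, ?_⟩
    · intro a ha
      simp only [mem_sdiff] at ha
      simpa using ha.2
    · have := card_sdiff_add_card_inter A Z
      simp only
      omega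
    · simp only
      rw [union_comm, sdiff_union_inter]
  refine (card_le_card this).trans (card_biUnion_le.trans (sum_le_sum fun i _ => ?_))
  refine card_image_le.trans ?_
  rw [card_product, card_powersetCard, card_powersetCard, card_compl]

theorem supersets_card {Ω : Type*} [Fintype Ω] [DecidableEq Ω] (D : Finset Ω) (w : ℕ)
    (hD : #D ≤ w) :
    (Fintype.card Ω - #D).choose (w - #D) ≤
      #((univ : Finset (Finset Ω)).filter fun A => #A = w ∧ D ⊆ A) := by
  rw [← card_compl, ← card_powersetCard]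
  refine card_le_card_of_injOn (fun B => B ∪ D) ?_ ?_
  · intro B hB
    simp only [mem_coe, mem_powersetCard] at hB
    have hd : Disjoint B D := by
      rw [disjoint_left]
      intro a ha
      simpa using hB.1 ha
    simp only [coe_filter, mem_univ, true_and, Set.mem_ofPred_eq]
    refine ⟨?_, subset_union_right⟩
    rw [card_union_of_disjoint hd]
    omega
  · intro B hB C hC e
    simp only [mem_coe, mem_powersetCard] at hB hC
    ext a
    have e' : a ∈ B ∪ D ↔ a ∈ C ∪ D := by
      have : B ∪ D = C ∪ D := e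
      rw [this]
    simp only [mem_union] at e'
    constructor
    · intro ha
      have : a ∉ D := by simpa using hB.1 ha
      tauto
    · intro ha
      have : a ∉ D := by simpa using hC.1 ha
      tauto

theorem bern (E : ℕ) (hE : 1 ≤ E) : 2 * (E - 1) ^ E ≤ E ^ E := by
  obtain ⟨e, rfl⟩ : ∃ e, E = e + 1 := ⟨E - 1, by omega⟩
  simp only [Nat.add_sub_cancel]
  have : ∀ j, e ^ (j + 1) + (j + 1) * e ^ j ≤ (e + 1) ^ (j + 1) := by
    intro j
    induction j with
    | zero => simp
    | succ j ih =>
      calc e ^ (j + 1 + 1) + (j + 1 + 1) * e ^ (j + 1)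
          ≤ (e ^ (j + 1) + (j + 1) * e ^ j) * (e + 1) := by
            have : (e ^ (j + 1) + (j + 1) * e ^ j) * (e + 1) =
              e ^ (j + 1 + 1) + (j + 1 + 1) * e ^ (j + 1) + (j + 1) * e ^ j := by ring
            omega
        _ ≤ (e + 1) ^ (j + 1) * (e + 1) := Nat.mul_le_mul_right _ ih
        _ = _ := by ring
  have h := this e
  have h2 : (e + 1) * e ^ e = e ^ (e + 1) + e ^ e := by ring
  omega

/-- a system of rows such that every `w`-set misses few rows -/
theorem expander {Ω : Type*} [Fintype Ω] [DecidableEq Ω] (w u : ℕ)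
    (hu : u ≤ Fintype.card Ω) (hm : 0 < Fintype.card Ω)
    (h : 4 ^ Fintype.card Ω * (Fintype.card Ω - w) ^ (u * u) < Fintype.card Ω ^ (u * u)) :
    ∃ J : Ω → Fin u → Ω, ∀ U : Finset Ω, #U = w →
      #(univ.filter fun y => ∀ i, J y i ∉ U) ≤ u := by
  classical
  by_contra hcon
  push Not at hcon
  set m := Fintype.card Ω with hm'
  have hsub : (univ : Finset (Ω → Fin u → Ω)) ⊆
      ((powersetCard w (univ : Finset Ω)) ×ˢ (powersetCard u (univ : Finset Ω))).biUnion
        fun p => Fintype.piFinset fun y =>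
          if y ∈ p.2 then Fintype.piFinset (fun _ : Fin u => p.1ᶜ) else univ := by
    intro J _
    obtain ⟨U, hU, hlt⟩ := hcon J
    obtain ⟨Y, hY, hYc⟩ := exists_subset_card_eq hlt.le
    simp only [mem_biUnion, mem_product, mem_powersetCard, Fintype.mem_piFinset]
    refine ⟨(U, Y), ⟨⟨subset_univ _, hU⟩, subset_univ _, hYc⟩, fun y => ?_⟩
    by_cases hy : y ∈ Y
    · simp only [hy, if_true, Fintype.mem_piFinset, mem_compl]
      exact (mem_filter.1 (hY hy)).2
    · simp [hy]
  have h1 := (card_le_card hsub).trans card_biUnion_le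
  have h2 : ∀ p ∈ ((powersetCard w (univ : Finset Ω)) ×ˢ (powersetCard u (univ : Finset Ω))),
      #(Fintype.piFinset fun y =>
          if y ∈ p.2 then Fintype.piFinset (fun _ : Fin u => p.1ᶜ) else univ) =
        (m - w) ^ (u * u) * m ^ (u * (m - u)) := by
    intro p hp
    simp only [mem_product, mem_powersetCard] at hp
    rw [Fintype.card_piFinset]
    have : ∀ y, #(if y ∈ p.2 then Fintype.piFinset (fun _ : Fin u => p.1ᶜ) else univ) =
        if y ∈ p.2 then (m - w) ^ u else m ^ u := by
      intro y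
      split_ifs
      · rw [Fintype.card_piFinset]
        simp [card_compl, hp.1.2, hm']
      · simp [hm']
    simp only [this]
    rw [prod_ite]
    simp only [prod_const, filter_mem_eq_inter, univ_inter]
    have e : #(univ.filter fun y => y ∉ p.2) = m - u := by
      have : (univ.filter fun y => y ∉ p.2) = p.2ᶜ := by ext; simp
      rw [this, card_compl, hp.2.2]
    rw [e, hp.2.2, ← pow_mul, ← pow_mul]
  rw [sum_congr rfl h2, sum_const, card_product, card_powersetCard, card_powersetCard] at h1
  simp only [card_univ, Fintype.card_fun, Fintype.card_fin, smul_eq_mul, ← hm'] at h1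
  have c1 : m.choose w ≤ 2 ^ m := Nat.choose_le_two_pow m w
  have c2 : m.choose u ≤ 2 ^ m := Nat.choose_le_two_pow m u
  have e4 : (4 : ℕ) ^ m = 2 ^ m * 2 ^ m := by rw [← mul_pow]; rfl
  have e5 : (m ^ u) ^ m = m ^ (u * u) * m ^ (u * (m - u)) := by
    rw [← pow_mul, ← pow_add, ← mul_add]
    congr 2
    omega
  have h3 : m.choose w * m.choose u * ((m - w) ^ (u * u) * m ^ (u * (m - u))) ≤
      (4 ^ m * (m - w) ^ (u * u)) * m ^ (u * (m - u)) := by
    rw [e4, ← mul_assoc]
    exact Nat.mul_le_mul_right _ (Nat.mul_le_mul_right _ (Nat.mul_le_mul c1 c2))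
  have h4 : (4 ^ m * (m - w) ^ (u * u)) * m ^ (u * (m - u)) <
      m ^ (u * u) * m ^ (u * (m - u)) := Nat.mul_lt_mul_of_pos_right h (by positivity)
  omega

theorem exists_injOn_of_card_le {α β : Type*} [Nonempty β] {s : Finset α} {t : Finset β}
    (h : #s ≤ #t) : ∃ e : α → β, (∀ ⦃a⦄, a ∈ s → e a ∈ t) ∧ Set.InjOn e s := by
  classical
  rw [← Fintype.card_coe s] at h
  obtain ⟨f, hf⟩ := Function.Embedding.exists_of_card_le_finset h
  refine ⟨fun a => if ha : a ∈ s then f ⟨a, ha⟩ else Classical.arbitrary β, ?_, ?_⟩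
  · intro a ha
    simp only [dif_pos ha]
    exact hf ⟨_, rfl⟩
  · intro a ha b hb e
    simp only [mem_coe] at ha hb
    simp only [dif_pos ha, dif_pos hb] at e
    exact congrArg Subtype.val (f.injective e)

/-- the local permutation -/
theorem localPerm {Λ : Type*} [Fintype Λ] [DecidableEq Λ] (I : Finset Λ) (j0 : ℕ)
    (hI : 2 ≤ #I) (hj : 1 ≤ j0) (hK : Fintype.card Λ ≤ #I * j0) :
    ∃ ψ : Equiv.Perm (Finset Λ), (∀ P, #(ψ P) = #P) ∧ (∀ P, I ⊆ P → ψ P = P) ∧
      (∀ P, Disjoint P I → j0 ≤ #P → ¬ Disjoint (ψ P) I) := by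
  classical
  have hc : ∀ j, j0 ≤ j → #(powersetCard j Iᶜ) ≤
      #((univ : Finset (Finset Λ)).filter fun P => #P = j ∧ #(P ∩ I) = 1) := by
    intro j hjj
    obtain ⟨b, rfl⟩ : ∃ b, j = b + 1 := ⟨j - 1, by omega⟩
    have h1 : #(I ×ˢ powersetCard b Iᶜ) ≤
        #((univ : Finset (Finset Λ)).filter fun P => #P = b + 1 ∧ #(P ∩ I) = 1) := by
      have hi : ∀ p : Λ × Finset Λ, p ∈ I ×ˢ powersetCard b Iᶜ →
          insert p.1 p.2 ∩ I = {p.1} ∧ insert p.1 p.2 \ I = p.2 := by
        intro p hp
        simp only [mem_product, mem_powersetCard] at hp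
        have : ∀ a ∈ p.2, a ∉ I := fun a ha => by simpa using hp.2.1 ha
        constructor
        · ext a
          simp only [mem_inter, mem_insert, mem_singleton]
          constructor
          · rintro ⟨h | h, h'⟩
            · exact h
            · exact absurd h' (this a h)
          · rintro rfl
            exact ⟨Or.inl rfl, hp.1⟩
        · ext a
          simp only [mem_sdiff, mem_insert]
          constructor
          · rintro ⟨h | h, h'⟩
            · exact absurd (h ▸ hp.1) h'
            · exact h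
          · intro h
            exact ⟨Or.inr h, this a h⟩
      refine card_le_card_of_injOn (fun p => insert p.1 p.2) ?_ ?_
      · intro p hp
        have h := hi p hp
        simp only [mem_coe, mem_product, mem_powersetCard] at hp
        simp only [coe_filter, mem_univ, true_and, Set.mem_ofPred_eq]
        refine ⟨?_, by rw [h.1]; simp⟩
        rw [card_insert_of_notMem, hp.2.2]
        intro h'
        have := hp.2.1 h'
        simp [hp.1] at this
      · intro p hp q hq e
        have h1 := hi p hp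
        have h2 := hi q hq
        have e' : insert p.1 p.2 = insert q.1 q.2 := e
        rw [e'] at h1
        exact Prod.ext (singleton_injective (h1.1.symm.trans h2.1)) (h1.2.symm.trans h2.2)
    refine le_trans ?_ h1
    rw [card_product, card_powersetCard, card_powersetCard]
    have e1 := Nat.choose_succ_right_eq (#Iᶜ) b
    have h2 : #Iᶜ - b ≤ #I * (b + 1) := by
      calc #Iᶜ - b ≤ Fintype.card Λ := (Nat.sub_le _ _).trans (card_le_univ _)
        _ ≤ _ := hK
        _ ≤ _ := Nat.mul_le_mul_left _ hjj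
    have h3 : (#Iᶜ).choose (b + 1) * (b + 1) ≤ (#I * (#Iᶜ).choose b) * (b + 1) := by
      rw [e1]
      calc _ ≤ (#Iᶜ).choose b * (#I * (b + 1)) := Nat.mul_le_mul_left _ h2
        _ = _ := by ring
    exact Nat.le_of_mul_le_mul_right h3 (by omega)
  have hex : ∀ j, ∃ e : Finset Λ → Finset Λ, j0 ≤ j → (Set.InjOn e (powersetCard j Iᶜ) ∧
      ∀ P ∈ powersetCard j Iᶜ, #(e P) = j ∧ #(e P ∩ I) = 1) := by
    intro j
    by_cases hjj : j0 ≤ j
    · obtain ⟨e, he1, he2⟩ := exists_injOn_of_card_le (hc j hjj)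
      refine ⟨e, fun _ => ⟨he2, fun P hP => ?_⟩⟩
      simpa using he1 hP
    · exact ⟨id, fun h => absurd h hjj⟩
  choose e he using hex
  have hmem : ∀ P : Finset Λ, Disjoint P I → P ∈ powersetCard #P Iᶜ := by
    intro P hP
    rw [mem_powersetCard]
    refine ⟨fun a ha => ?_, rfl⟩
    simpa using disjoint_left.1 hP ha
  have hp : ∀ P : Finset Λ, Disjoint P I ∧ j0 ≤ #P → #(e #P P) = #P ∧ #(e #P P ∩ I) = 1 :=
    fun P hP => (he #P hP.2).2 P (hmem P hP.1)
  have hnd : ∀ P : Finset Λ, #(P ∩ I) = 1 → ¬ Disjoint P I := by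
    intro P h1 h2
    rw [disjoint_iff_inter_eq_empty.1 h2] at h1
    simp at h1
  obtain ⟨τ, t1, t2, t3⟩ := swapPerm {P : Finset Λ | Disjoint P I ∧ j0 ≤ #P} (fun P => e #P P)
    (by
      intro P hP Q hQ h
      have h' : e #P P = e #Q Q := h
      have hc : #P = #Q := by rw [← (hp P hP).1, h', (hp Q hQ).1]
      rw [← hc] at h'
      exact (he #P hP.2).1 (hmem P hP.1) (by rw [hc]; exact hmem Q hQ.1) h')
    (fun P hP h => hnd _ (hp P hP).2 h.1)
  refine ⟨τ, fun P => ?_, fun P hP => ?_, fun P h1 h2 => ?_⟩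
  · by_cases h1 : Disjoint P I ∧ j0 ≤ #P
    · rw [t1 P h1, (hp P h1).1]
    · by_cases h2 : ∃ Q, (Disjoint Q I ∧ j0 ≤ #Q) ∧ e #Q Q = P
      · obtain ⟨Q, hQ, rfl⟩ := h2
        rw [t2 Q hQ, (hp Q hQ).1]
      · rw [t3 P h1 (fun Q hQ h => h2 ⟨Q, hQ, h⟩)]
  · refine t3 P (fun h => ?_) (fun Q hQ h => ?_)
    · have := disjoint_of_subset_left hP h.1
      rw [disjoint_self, bot_eq_empty] at this
      simp [this] at hI
    · have h1 := (hp Q hQ).2
      have h' : e #Q Q = P := h
      rw [h', inter_eq_right.2 hP] at h1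
      omega
  · rw [t1 P ⟨h1, h2⟩]
    exact hnd _ (hp P ⟨h1, h2⟩).2

end Pool.Agent.H245Z.Kn
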