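import Pool.Agent.H245Z.KnA

set_option autoImplicit false

namespace Pool.Agent.H245Z.Kn

open Finset

variable {G Λ : Type*} [Fintype G] [DecidableEq G] [Fintype Λ] [DecidableEq Λ]

def row (A : Finset (G × Λ)) (q : G) : Finset Λ := univ.filter fun i => (q, i) ∈ A

def glue (g : G → Finset Λ) : Finset (G × Λ) := univ.filter fun p => p.2 ∈ g p.1

omit [Fintype G] in
@[simp] theorem mem_row {A : Finset (G × Λ)} {q : G} {i : Λ} : i ∈ row A q ↔ (q, i) ∈ A := by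
  simp [row]

omit [DecidableEq G] in
@[simp] theorem mem_glue {g : G → Finset Λ} {p : G × Λ} : p ∈ glue g ↔ p.2 ∈ g p.1 := by
  simp [glue]

@[simp] theorem row_glue (g : G → Finset Λ) (q : G) : row (glue g) q = g q := by
  ext i; simp

theorem glue_row (A : Finset (G × Λ)) : glue (row A) = A := by
  ext p; simp

omit [Fintype G] in
theorem card_inter_prod (A : Finset (G × Λ)) (Q : Finset G) :
    #(A ∩ Q ×ˢ univ) = ∑ q ∈ Q, #(row A q) := by
  rw [card_eq_sum_card_fiberwise (f := Prod.fst) (t := Q)]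
  · refine sum_congr rfl fun q hq => ?_
    symm
    refine card_bij (fun i _ => (q, i)) ?_ ?_ ?_
    · intro i hi
      simpa [hq] using hi
    · intro i _ j _ e
      exact (Prod.ext_iff.1 e).2
    · rintro ⟨a, b⟩ hp
      simp only [mem_filter, mem_inter, mem_product] at hp
      obtain ⟨⟨h1, _⟩, rfl⟩ := hp
      exact ⟨b, by simpa using h1, rfl⟩
  · intro p hp
    simp only [coe_inter, Set.mem_inter_iff, mem_coe, mem_product] at hp
    exact hp.2.1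

theorem card_eq_sum_row (A : Finset (G × Λ)) : #A = ∑ q, #(row A q) := by
  rw [← card_inter_prod, univ_product_univ, inter_univ]

def f0 (ψ : Equiv.Perm (Finset Λ)) : Equiv.Perm (Finset (G × Λ)) where
  toFun A := glue fun q => ψ (row A q)
  invFun A := glue fun q => ψ.symm (row A q)
  left_inv A := by simp [glue_row]
  right_inv A := by simp [glue_row]

@[simp] theorem row_f0 (ψ : Equiv.Perm (Finset Λ)) (A : Finset (G × Λ)) (q : G) :
    row (f0 ψ A) q = ψ (row A q) := by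
  simp [f0]

theorem card_f0 (ψ : Equiv.Perm (Finset Λ)) (h : ∀ P, #(ψ P) = #P) (A : Finset (G × Λ)) :
    #(f0 ψ A) = #A := by
  simp [card_eq_sum_row, h]

def Str (I : Finset Λ) (A : Finset (G × Λ)) : Finset G := univ.filter fun q => I ⊆ row A q

def Bad (I : Finset Λ) (j0 : ℕ) (A : Finset (G × Λ)) : Finset G :=
  univ.filter fun q => Disjoint (row A q) I ∧ #(row A q) < j0

def Good (I : Finset Λ) (j0 r w : ℕ) (ψ : Equiv.Perm (Finset Λ)) (R U A : Finset (G × Λ)) : Prop :=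
  #A = w ∧ r ≤ #(Str I A) ∧ #(Bad I j0 A) < r ∧ (∀ p ∈ R, p ∈ A ∧ I ⊆ row A p.1) ∧
    (∀ q, Disjoint (row U q) I → ¬ Disjoint (ψ (row A q)) I) ∧
    (∀ q, Disjoint (row A q) I → ¬ Disjoint (ψ (row U q)) I)

theorem not_disj {I P : Finset Λ} (hI : I.Nonempty) (h : I ⊆ P) : ¬ Disjoint P I := by
  obtain ⟨i, hi⟩ := hI
  exact fun hd => disjoint_left.1 hd (h hi) hi

theorem assemble (I : Finset Λ) (j0 r w u : ℕ) (hr : 0 < r)
    (ψ : Equiv.Perm (Finset Λ)) (h1 : ∀ P, #(ψ P) = #P) (h2 : ∀ P, I ⊆ P → ψ P = P)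
    (h3 : ∀ P, Disjoint P I → j0 ≤ #P → ¬ Disjoint (ψ P) I)
    (J : G × Λ → Fin u → G × Λ) (x : G × Λ) (R : Finset (G × Λ) → Finset (G × Λ))
    (hx : ∀ U, x ∈ R U) (hM : ∀ U y, (∀ i, J y i ∉ U) → y ∈ R U)
    (hy : ∀ U, #U = w → ∃ y ∈ f0 ψ U, ∀ i, J y i ∈ R U)
    (h : Finset (G × Λ) → Finset (G × Λ))
    (hinj : Set.InjOn h {U | #U = w ∧ ¬ (r ≤ #(Str I U) ∧ #(Bad I j0 U) < r)})
    (hgood : ∀ U, #U = w → ¬ (r ≤ #(Str I U) ∧ #(Bad I j0 U) < r) →
      Good I j0 r w ψ (R U) U (h U)) :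
    ∃ σ : Equiv.Perm (Finset (G × Λ)), (∀ A, #(σ A) = #A) ∧
      ∀ A B, #A = w → #B = w → Disjoint A B → ¬ Disjoint (σ A) (σ B) := by
  obtain ⟨τ, t1, t2, t3⟩ := swapPerm _ h hinj (fun U hU hh =>
    hh.2 ⟨(hgood U hU.1 hU.2).2.1, (hgood U hU.1 hU.2).2.2.1⟩)
  have hcases : ∀ A, (#A = w ∧ ¬ (r ≤ #(Str I A) ∧ #(Bad I j0 A) < r) ∧ τ A = h A) ∨
      (∃ U, #U = w ∧ ¬ (r ≤ #(Str I U) ∧ #(Bad I j0 U) < r) ∧ A = h U ∧ τ A = U) ∨
      ((#A = w → r ≤ #(Str I A) ∧ #(Bad I j0 A) < r) ∧ τ A = A) := by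
    intro A
    by_cases a1 : #A = w ∧ ¬ (r ≤ #(Str I A) ∧ #(Bad I j0 A) < r)
    · exact Or.inl ⟨a1.1, a1.2, t1 A a1⟩
    · by_cases a2 : ∃ U, (#U = w ∧ ¬ (r ≤ #(Str I U) ∧ #(Bad I j0 U) < r)) ∧ h U = A
      · obtain ⟨U, hU, rfl⟩ := a2
        exact Or.inr (Or.inl ⟨U, hU.1, hU.2, rfl, t2 U hU⟩)
      · refine Or.inr (Or.inr ⟨fun hw => ?_, t3 A a1 fun U hU e => a2 ⟨U, hU, e⟩⟩)
        by_contra hc
        exact a1 ⟨hw, hc⟩
  have fix : ∀ (A : Finset (G × Λ)) (p : G × Λ), p ∈ A → I ⊆ row A p.1 → p ∈ f0 ψ A := by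
    intro A p hp hs
    have : p.2 ∈ row (f0 ψ A) p.1 := by
      rw [row_f0, h2 _ hs]
      simpa using hp
    simpa only [mem_row] using this
  have weak : ∀ A, #A = w → #(univ.filter fun q =>
      Disjoint (row A q) I ∧ Disjoint (row (f0 ψ (τ A)) q) I) < r := by
    intro A hA
    rcases hcases A with ⟨a1, a2, a3⟩ | ⟨U, a1, a2, rfl, a4⟩ | ⟨a1, a2⟩
    · rw [a3, filter_eq_empty_iff.2]
      · simpa using hr
      · intro q _ hq
        rw [row_f0] at hq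
        exact (hgood A a1 a2).2.2.2.2.1 q hq.1 hq.2
    · rw [a4, filter_eq_empty_iff.2]
      · simpa using hr
      · intro q _ hq
        rw [row_f0] at hq
        exact (hgood U a1 a2).2.2.2.2.2 q hq.1 hq.2
    · rw [a2]
      refine lt_of_le_of_lt (card_le_card fun q hq => ?_) (a1 hA).2
      simp only [mem_filter, mem_univ, true_and, row_f0, Bad] at hq ⊢
      refine ⟨hq.1, ?_⟩
      by_contra hc
      exact h3 _ hq.1 (by omega) hq.2
  have tri : ∀ A, #A = w →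
      (r ≤ #(univ.filter fun q => I ⊆ row A q ∧ I ⊆ row (f0 ψ (τ A)) q)) ∨
      (x ∈ f0 ψ (τ A) ∧ ∀ y, (∀ i, J y i ∉ A) → y ∈ f0 ψ (τ A)) ∨
      (x ∈ A ∧ ∃ y ∈ f0 ψ (τ A), ∀ i, J y i ∈ A) := by
    intro A hA
    rcases hcases A with ⟨a1, a2, a3⟩ | ⟨U, a1, a2, rfl, a4⟩ | ⟨a1, a2⟩
    · have g := (hgood A a1 a2).2.2.2.1
      rw [a3]
      exact Or.inr (Or.inl ⟨fix _ _ (g x (hx A)).1 (g x (hx A)).2, fun y hy' =>
        fix _ _ (g y (hM A y hy')).1 (g y (hM A y hy')).2⟩)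
    · have g := (hgood U a1 a2).2.2.2.1
      rw [a4]
      obtain ⟨y, hy1, hy2⟩ := hy U a1
      exact Or.inr (Or.inr ⟨(g x (hx U)).1, y, hy1, fun i => (g _ (hy2 i)).1⟩)
    · rw [a2]
      refine Or.inl ((a1 hA).1.trans (card_le_card fun q hq => ?_))
      simp only [mem_filter, mem_univ, true_and, row_f0, Str] at hq ⊢
      exact ⟨hq, by rw [h2 _ hq]; exact hq⟩
  have sw : ∀ A B, #B = w → Disjoint A B → Disjoint (f0 ψ (τ A)) (f0 ψ (τ B)) →
      ¬ (r ≤ #(univ.filter fun q => I ⊆ row A q ∧ I ⊆ row (f0 ψ (τ A)) q)) := by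
    intro A B hB d1 d2 hle
    refine absurd (hle.trans (card_le_card fun q hq => ?_)) (not_le.2 (weak B hB))
    simp only [mem_filter, mem_univ, true_and] at hq ⊢
    constructor
    · rw [disjoint_left]
      intro i hi hI
      exact disjoint_left.1 d1 (mem_row.1 (hq.1 hI)) (mem_row.1 hi)
    · rw [disjoint_left]
      intro i hi hI
      exact disjoint_left.1 d2 (mem_row.1 (hq.2 hI)) (mem_row.1 hi)
  refine ⟨τ.trans (f0 ψ), fun A => ?_, fun A B hA hB d1 d2 => ?_⟩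
  · rw [Equiv.trans_apply, card_f0 ψ h1]
    rcases hcases A with ⟨a1, a2, a3⟩ | ⟨U, a1, a2, rfl, a4⟩ | ⟨a1, a2⟩
    · rw [a3, a1, (hgood A a1 a2).1]
    · rw [a4, a1, (hgood U a1 a2).1]
    · rw [a2]
  · simp only [Equiv.trans_apply] at d2
    rcases tri A hA with a | a | a
    · exact sw A B hB d1 d2 a
    · rcases tri B hB with b | b | b
      · exact sw B A hA d1.symm d2.symm b
      · exact disjoint_left.1 d2 a.1 b.1
      · obtain ⟨y, hy1, hy2⟩ := b.2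
        exact disjoint_left.1 d2 (a.2 y fun i hi => disjoint_left.1 d1 hi (hy2 i)) hy1
    · rcases tri B hB with b | b | b
      · exact sw B A hA d1.symm d2.symm b
      · obtain ⟨y, hy1, hy2⟩ := a.2
        exact disjoint_left.1 d2 hy1 (b.2 y fun i hi => disjoint_left.1 d1 (hy2 i) hi)
      · exact disjoint_left.1 d1 a.1 b.1

theorem good_of (I : Finset Λ) (hI : I.Nonempty) (j0 r w : ℕ) (hr : 0 < r)
    (ψ : Equiv.Perm (Finset Λ)) (h2 : ∀ P, I ⊆ P → ψ P = P)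
    (h3 : ∀ P, Disjoint P I → j0 ≤ #P → ¬ Disjoint (ψ P) I)
    (R U A : Finset (G × Λ)) (G' : Finset G) (hA : #A = w) (hG : r ≤ #G')
    (a1 : ∀ q ∈ G', I ⊆ row A q) (a2 : Bad I j0 U ⊆ G') (a3 : ∀ p ∈ R, p ∈ A ∧ p.1 ∈ G')
    (a4 : ∀ q, q ∉ G' → (Disjoint (row A q) I ↔ Disjoint (row U q) I) ∧
      (j0 ≤ #(row U q) → j0 ≤ #(row A q))) :
    Good I j0 r w ψ R U A := by
  have big : ∀ q, q ∉ G' → Disjoint (row U q) I → j0 ≤ #(row U q) := by
    intro q hq hd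
    by_contra hc
    exact hq (a2 (by simp only [Bad, mem_filter, mem_univ, true_and]; exact ⟨hd, by omega⟩))
  refine ⟨hA, hG.trans (card_le_card fun q hq => ?_), ?_, fun p hp => ⟨(a3 p hp).1,
    a1 _ (a3 p hp).2⟩, fun q hd => ?_, fun q hd => ?_⟩
  · simpa [Str] using a1 q hq
  · rw [Bad, filter_eq_empty_iff.2]
    · simpa using hr
    · rintro q _ ⟨hd, hc⟩
      have hq : q ∉ G' := fun hq => not_disj hI (a1 q hq) hd
      have := (a4 q hq).2 (big q hq ((a4 q hq).1.1 hd))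
      omega
  · by_cases hq : q ∈ G'
    · rw [h2 _ (a1 q hq)]
      exact not_disj hI (a1 q hq)
    · exact h3 _ ((a4 q hq).1.2 hd) ((a4 q hq).2 (big q hq hd))
  · have hq : q ∉ G' := fun hq => not_disj hI (a1 q hq) hd
    exact h3 _ ((a4 q hq).1.1 hd) (big q hq ((a4 q hq).1.1 hd))

theorem exists_spare (I : Finset Λ) (j0 : ℕ) (R U : Finset (G × Λ)) :
    ∃ X : Finset (G × Λ), X ⊆ U ∧ (∀ p ∈ X, p.2 ∉ I ∧ p ∉ R) ∧
      (∀ q, j0 ≤ #(row U q) → ∀ E, E ⊆ X → j0 ≤ #(row (U \ E) q)) ∧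
      #U ≤ #X + (Fintype.card G * j0 + Fintype.card G * #I + #R) := by
  have hk : ∀ q, ∃ P, P ⊆ row U q ∧ #P = min j0 #(row U q) := fun q =>
    exists_subset_card_eq (min_le_right _ _)
  choose κ hκ1 hκ2 using hk
  refine ⟨U \ (glue κ ∪ univ ×ˢ I ∪ R), sdiff_subset, fun p hp => ?_, fun q hq E hE => ?_, ?_⟩
  · simp only [mem_sdiff, mem_union, mem_product, mem_univ, true_and] at hp
    tauto
  · have : κ q ⊆ row (U \ E) q := by
      intro i hi
      rw [mem_row, mem_sdiff]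
      refine ⟨mem_row.1 (hκ1 q hi), fun h => ?_⟩
      have := hE h
      simp only [mem_sdiff, mem_union, mem_glue] at this
      tauto
    have h1 := card_le_card this
    rw [hκ2, min_eq_left hq] at h1
    exact h1
  · refine (card_le_card_sdiff_add_card (s := U) (t := glue κ ∪ univ ×ˢ I ∪ R)).trans (Nat.add_le_add_left ?_ _)
    refine (card_union_le _ _).trans (Nat.add_le_add_right ((card_union_le _ _).trans ?_) _)
    refine Nat.add_le_add ?_ (by simp)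
    rw [card_eq_sum_row]
    calc ∑ q, #(row (glue κ) q) ≤ ∑ _q : G, j0 := sum_le_sum fun q _ => by
          rw [row_glue, hκ2]; exact min_le_left _ _
      _ = _ := by simp

end Pool.Agent.H245Z.Kn
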