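import Pool.Agent.H245Z.KnB

set_option autoImplicit false

namespace Pool.Agent.H245Z.Kn

open Finset

variable {G Λ : Type*} [Fintype G] [DecidableEq G] [Fintype Λ] [DecidableEq Λ]

open Classical in
noncomputable def Nb (I : Finset Λ) (j0 r w : ℕ) (ψ : Equiv.Perm (Finset Λ))
    (R : Finset (G × Λ) → Finset (G × Λ)) (U : Finset (G × Λ)) : Finset (Finset (G × Λ)) :=
  univ.filter fun A => Good I j0 r w ψ (R U) U A

theorem mem_Nb {I : Finset Λ} {j0 r w : ℕ} {ψ : Equiv.Perm (Finset Λ)}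
    {R : Finset (G × Λ) → Finset (G × Λ)} {U A : Finset (G × Λ)} :
    A ∈ Nb I j0 r w ψ R U ↔ Good I j0 r w ψ (R U) U A := by
  simp [Nb]

theorem small_hall (I : Finset Λ) (hI : I.Nonempty) (j0 r w t x0 D : ℕ) (hr : 0 < r) (hDpos : 0 < D)
    (ψ : Equiv.Perm (Finset Λ)) (h2 : ∀ P, I ⊆ P → ψ P = P)
    (h3 : ∀ P, Disjoint P I → j0 ≤ #P → ¬ Disjoint (ψ P) I)
    (R : Finset (G × Λ) → Finset (G × Λ)) (hR : ∀ U, #U = w → #(R U) ≤ t)
    (hKt : Fintype.card Λ * t ≤ r)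
    (hx0 : x0 + (Fintype.card G * j0 + Fintype.card G * #I + t) ≤ w)
    (ha0 : (3 * #I + 1) * r ≤ x0)
    (hD : Fintype.card (G × Λ) ≤ D * (x0 - (3 * #I + 1) * r))
    (hF : 2 * (2 ^ ((4 * #I + 9) * r) * D ^ ((3 * #I + 1) * r)) ≤ (Fintype.card G).choose r)
    (𝒜 : Finset (Finset (G × Λ)))
    (h𝒜 : ∀ U ∈ 𝒜, #U = w ∧ #(Str I U) < r ∧ #(Bad I j0 U) < r) :
    2 * #𝒜 ≤ #(𝒜.biUnion (Nb I j0 r w ψ R)) := by
  classical
  set a0 := (3 * #I + 1) * r with ha0'
  have htr : t ≤ r := by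
    obtain ⟨i, _⟩ := hI
    have : 0 < Fintype.card Λ := Fintype.card_pos_iff.2 ⟨i⟩
    nlinarith
  choose X hX1 hX2 hX3 hX4 using fun U => exists_spare I j0 (R U) U
  have hpre : ∀ (E : Finset (G × Λ)) (a : ℕ), ∃ P, P ⊆ E ∧ (a ≤ #E → #P = a) := by
    intro E a
    by_cases h : a ≤ #E
    · obtain ⟨P, h1, h2⟩ := exists_subset_card_eq h
      exact ⟨P, h1, fun _ => h2⟩
    · exact ⟨∅, empty_subset _, fun h' => absurd h' h⟩
  choose pre hp1 hp2 using hpre
  let G0 : Finset (G × Λ) → Finset G := fun U => Bad I j0 U ∪ (R U).image Prod.fst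
  let Ad : Finset (G × Λ) → Finset G → Finset (G × Λ) :=
    fun U Q => (R U ∪ (G0 U ∪ Q) ×ˢ I) \ U
  let Φ : (Σ _ : Finset (G × Λ), Finset G × Finset (G × Λ)) → Finset (G × Λ) :=
    fun z => (z.1 ∪ Ad z.1 z.2.1) \ pre z.2.2 #(Ad z.1 z.2.1)
  let T : Finset (Σ _ : Finset (G × Λ), Finset G × Finset (G × Λ)) :=
    𝒜.sigma fun U => powersetCard r univ ×ˢ powersetCard a0 (X U)
  have hT : ∀ z ∈ T, z.1 ∈ 𝒜 ∧ #z.2.1 = r ∧ z.2.2 ⊆ X z.1 ∧ #z.2.2 = a0 := by
    intro z hz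
    simp only [T, mem_sigma, mem_product, mem_powersetCard] at hz
    exact ⟨hz.1, hz.2.1.2, hz.2.2.1, hz.2.2.2⟩
  have hG0 : ∀ U ∈ 𝒜, #(G0 U) ≤ 2 * r := by
    intro U hU
    have h1 := card_union_le (Bad I j0 U) ((R U).image Prod.fst)
    have h2 : #((R U).image Prod.fst) ≤ #(R U) := card_image_le
    have h3 := hR U (h𝒜 U hU).1
    have h4 := (h𝒜 U hU).2.2
    simp only [G0]
    omega
  have hAd : ∀ z ∈ T, #(Ad z.1 z.2.1) ≤ a0 := by
    intro z hz
    obtain ⟨b1, b2, _, _⟩ := hT z hz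
    have h1 : #(Ad z.1 z.2.1) ≤ #(R z.1) + #((G0 z.1 ∪ z.2.1) ×ˢ I) :=
      (card_le_card sdiff_subset).trans (card_union_le _ _)
    have h2 := card_union_le (G0 z.1) z.2.1
    have h3 := hG0 _ b1
    have h4 := hR _ (h𝒜 _ b1).1
    rw [card_product] at h1
    have h5 : #(G0 z.1 ∪ z.2.1) * #I ≤ (3 * r) * #I := Nat.mul_le_mul_right _ (by omega)
    have h6 : a0 = 3 * r * #I + r := by rw [ha0']; ring
    omega
  have hin : ∀ z ∈ T, ∀ p, p ∈ R z.1 ∨ (p.1 ∈ G0 z.1 ∪ z.2.1 ∧ p.2 ∈ I) → p ∈ Φ z := by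
    intro z hz p hp
    obtain ⟨_, _, b3, _⟩ := hT z hz
    simp only [Φ, Ad, mem_sdiff, mem_union, mem_product]
    simp only [mem_union] at hp
    refine ⟨by tauto, fun h => ?_⟩
    have := hX2 _ _ (b3 (hp1 _ _ h))
    tauto
  have hout : ∀ z ∈ T, ∀ q, q ∉ G0 z.1 ∪ z.2.1 →
      row (Φ z) q = row (z.1 \ pre z.2.2 #(Ad z.1 z.2.1)) q := by
    intro z hz q hq
    ext i
    have h1 : (q, i) ∉ Ad z.1 z.2.1 := by
      intro h
      simp only [Ad, mem_sdiff, mem_union, mem_product] at h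
      rcases h.1 with h' | h'
      · exact hq (mem_union_left _ (mem_union_right _ (mem_image.2 ⟨_, h', rfl⟩)))
      · exact hq (mem_union.2 h'.1)
    simp only [mem_row, Φ, mem_sdiff, mem_union, h1, or_false]
  have houtI : ∀ z ∈ T, ∀ q, q ∉ G0 z.1 ∪ z.2.1 → ∀ i ∈ I,
      (i ∈ row (Φ z) q ↔ i ∈ row z.1 q) := by
    intro z hz q hq i hi
    obtain ⟨_, _, b3, _⟩ := hT z hz
    rw [hout z hz q hq, mem_row, mem_row, mem_sdiff]
    exact ⟨fun h => h.1, fun h => ⟨h, fun h' => (hX2 _ _ (b3 (hp1 _ _ h'))).1 hi⟩⟩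
  have hstr : ∀ z ∈ T, ∀ q ∈ G0 z.1 ∪ z.2.1, I ⊆ row (Φ z) q := by
    intro z hz q hq i hi
    exact mem_row.2 (hin z hz (q, i) (Or.inr ⟨hq, hi⟩))
  have hpreU : ∀ z ∈ T, pre z.2.2 #(Ad z.1 z.2.1) ⊆ z.1 := fun z hz =>
    (hp1 _ _).trans ((hT z hz).2.2.1.trans (hX1 _))
  have hdisj : ∀ U Q, Disjoint U (Ad U Q) := fun U Q => disjoint_sdiff
  have hgood : ∀ z ∈ T, Good I j0 r w ψ (R z.1) z.1 (Φ z) := by
    intro z hz
    obtain ⟨b1, b2, b3, b4⟩ := hT z hz
    refine good_of I hI j0 r w hr ψ h2 h3 _ _ _ (G0 z.1 ∪ z.2.1) ?_ ?_ (hstr z hz) ?_ ?_ ?_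
    · simp only [Φ]
      rw [card_sdiff_of_subset ((hpreU z hz).trans subset_union_left),
        card_union_of_disjoint (hdisj _ _), hp2 _ _ (b4 ▸ hAd z hz), (h𝒜 _ b1).1]
      omega
    · exact b2 ▸ card_le_card subset_union_right
    · exact subset_union_left.trans subset_union_left
    · intro p hp
      exact ⟨hin z hz p (Or.inl hp),
        mem_union_left _ (mem_union_right _ (mem_image.2 ⟨_, hp, rfl⟩))⟩
    · intro q hq
      refine ⟨?_, fun h => ?_⟩
      · simp only [disjoint_right]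
        exact ⟨fun h i hi h' => h hi ((houtI z hz q hq i hi).2 h'),
          fun h i hi h' => h hi ((houtI z hz q hq i hi).1 h')⟩
      · rw [hout z hz q hq]
        exact hX3 _ q h _ ((hp1 _ _).trans b3)
  have hS : ∀ z ∈ T, #(Str I (Φ z)) ≤ 4 * r := by
    intro z hz
    obtain ⟨b1, b2, b3, b4⟩ := hT z hz
    have : Str I (Φ z) ⊆ Str I z.1 ∪ (G0 z.1 ∪ z.2.1) := by
      intro q hq
      by_cases h : q ∈ G0 z.1 ∪ z.2.1
      · exact mem_union_right _ h
      · refine mem_union_left _ ?_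
        simp only [Str, mem_filter, mem_univ, true_and] at hq ⊢
        exact fun i hi => (houtI z hz q h i hi).1 (hq hi)
    have h1 := (card_le_card this).trans (card_union_le _ _)
    have h2 := card_union_le (G0 z.1) z.2.1
    have h3 := hG0 _ b1
    have h4 := (h𝒜 _ b1).2.1
    omega
  have hmaps : ∀ z ∈ T, Φ z ∈ 𝒜.biUnion (Nb I j0 r w ψ R) := fun z hz =>
    mem_biUnion.2 ⟨z.1, (hT z hz).1, mem_Nb.2 (hgood z hz)⟩
  have hfib : ∀ A ∈ 𝒜.biUnion (Nb I j0 r w ψ R), #(T.filter fun z => Φ z = A) ≤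
      2 ^ ((4 * #I + 9) * r) * (Fintype.card (G × Λ)).choose a0 := by
    intro A _
    rcases (T.filter fun z => Φ z = A).eq_empty_or_nonempty with he | ⟨z0, hz0⟩
    · rw [he]; simp
    have hSA : #(Str I A) ≤ 4 * r := by
      rw [mem_filter] at hz0
      exact hz0.2 ▸ hS z0 hz0.1
    let W : Finset (Finset G × Finset (G × Λ) × Finset (G × Λ)) :=
      powerset (Str I A) ×ˢ ((((powerset (Str I A)).filter fun G1 => #G1 ≤ t).biUnion
        fun G1 => powerset (Str I A ×ˢ I ∪ G1 ×ˢ univ)) ×ˢ powersetCard a0 univ)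
    have hW : #W ≤ 2 ^ ((4 * #I + 9) * r) * (Fintype.card (G × Λ)).choose a0 := by
      simp only [W]
      rw [card_product, card_product, card_powerset, card_powersetCard, card_univ, ← mul_assoc]
      refine Nat.mul_le_mul_right _ ?_
      have e : 2 ^ ((4 * #I + 9) * r) = 2 ^ (4 * r) * (2 ^ (4 * r) * 2 ^ (4 * r * #I + r)) := by
        rw [← pow_add, ← pow_add]; congr 1; ring
      rw [e]
      refine Nat.mul_le_mul (Nat.pow_le_pow_right (by norm_num) hSA) ?_
      refine (card_biUnion_le_card_mul _ _ (2 ^ (4 * r * #I + r)) ?_).trans ?_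
      · intro G1 hG1
        rw [card_powerset]
        refine Nat.pow_le_pow_right (by norm_num) ((card_union_le _ _).trans ?_)
        rw [card_product, card_product, card_univ]
        refine Nat.add_le_add (Nat.mul_le_mul_right _ hSA) ?_
        calc _ ≤ t * Fintype.card Λ := Nat.mul_le_mul_right _ (mem_filter.1 hG1).2
          _ ≤ r := by rw [mul_comm]; exact hKt
      · refine Nat.mul_le_mul_right _ ((card_filter_le _ _).trans ?_)
        rw [card_powerset]
        exact Nat.pow_le_pow_right (by norm_num) hSA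
    refine le_trans (card_le_card_of_injOn (fun z => (z.2.1, Ad z.1 z.2.1, z.2.2)) ?_ ?_) hW
    · intro z hz
      rw [mem_coe, mem_filter] at hz
      obtain ⟨hz, rfl⟩ := hz
      have hsub : G0 z.1 ∪ z.2.1 ⊆ Str I (Φ z) := fun q hq => by
        simpa [Str] using hstr z hz q hq
      simp only [W, mem_coe, mem_product, mem_powerset, mem_biUnion, mem_filter, mem_powersetCard]
      refine ⟨subset_union_right.trans hsub, ⟨(R z.1).image Prod.fst,
        ⟨subset_union_right.trans (subset_union_left.trans hsub),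
          card_image_le.trans (hR _ (h𝒜 _ (hT z hz).1).1)⟩, fun p hp => ?_⟩,
        subset_univ _, (hT z hz).2.2.2⟩
      simp only [Ad, mem_sdiff] at hp
      rcases mem_union.1 hp.1 with h | h
      · exact mem_union_right _ (mem_product.2 ⟨mem_image.2 ⟨_, h, rfl⟩, mem_univ _⟩)
      · rw [mem_product] at h
        exact mem_union_left _ (mem_product.2 ⟨hsub h.1, h.2⟩)
    · have hrec : ∀ z ∈ T, z.1 = (Φ z \ Ad z.1 z.2.1) ∪ pre z.2.2 #(Ad z.1 z.2.1) := by
        intro z hz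
        ext p
        have h1 := @hpreU z hz p
        have h2 := @disjoint_left.1 (hdisj z.1 z.2.1) p
        simp only [Φ, mem_union, mem_sdiff]
        tauto
      intro z hz z' hz' e
      rw [mem_coe, mem_filter] at hz hz'
      simp only [Prod.mk.injEq] at e
      have e1 : z.1 = z'.1 := by
        rw [hrec z hz.1, hrec z' hz'.1, hz.2, hz'.2, e.2.1, e.2.2]
      exact Sigma.ext e1 (heq_of_eq (Prod.ext e.1 e.2.2))
  have hup := card_le_mul_card_image_of_maps_to hmaps _ hfib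
  have hlow : #𝒜 * ((Fintype.card G).choose r * x0.choose a0) ≤ #T := by
    simp only [T]
    rw [card_sigma, ← smul_eq_mul, ← sum_const]
    refine sum_le_sum fun U hU => ?_
    rw [card_product, card_powersetCard, card_powersetCard, card_univ]
    refine Nat.mul_le_mul_left _ (Nat.choose_le_choose _ ?_)
    have h1 := hX4 U
    have h2 := hR U (h𝒜 U hU).1
    have h3 := (h𝒜 U hU).1
    omega
  have hc := choose_le_pow_mul _ x0 a0 D hD
  have hpos : 0 < x0.choose a0 := Nat.choose_pos ha0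
  have hD0 : 0 < D ^ a0 := by positivity
  set B := 2 ^ ((4 * #I + 9) * r) with hB
  set N := #(𝒜.biUnion (Nb I j0 r w ψ R))
  have hB0 : 0 < B := by positivity
  have key : (2 * #𝒜) * (B * D ^ a0 * x0.choose a0) ≤ N * (B * D ^ a0 * x0.choose a0) := by
    calc (2 * #𝒜) * (B * D ^ a0 * x0.choose a0)
        = #𝒜 * ((2 * (B * D ^ a0)) * x0.choose a0) := by ring
      _ ≤ #𝒜 * ((Fintype.card G).choose r * x0.choose a0) :=
          Nat.mul_le_mul_left _ (Nat.mul_le_mul_right _ hF)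
      _ ≤ #T := hlow
      _ ≤ _ := hup
      _ ≤ B * (D ^ a0 * x0.choose a0) * N :=
          Nat.mul_le_mul_right _ (Nat.mul_le_mul_left _ hc)
      _ = _ := by ring
  exact Nat.le_of_mul_le_mul_right key (by positivity)

end Pool.Agent.H245Z.Kn
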