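import Pool.Agent.H245Z.KnC

set_option autoImplicit false

namespace Pool.Agent.H245Z.Kn

open Finset

variable {G Λ : Type*} [Fintype G] [DecidableEq G] [Fintype Λ] [DecidableEq Λ]

theorem big_hall (I : Finset Λ) (hI : I.Nonempty) (j0 r w t D : ℕ) (hr : 0 < r) (hDpos : 0 < D)
    (ψ : Equiv.Perm (Finset Λ)) (h2 : ∀ P, I ⊆ P → ψ P = P)
    (h3 : ∀ P, Disjoint P I → j0 ≤ #P → ¬ Disjoint (ψ P) I)
    (R : Finset (G × Λ) → Finset (G × Λ)) (hR : ∀ U, #U = w → #(R U) ≤ t)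
    (hrn : r ≤ Fintype.card G)
    (hu : Fintype.card G * #I + t ≤ w)
    (hD : Fintype.card (G × Λ) ≤ D * (w - (Fintype.card G * #I + t)))
    (hs : 2 * (r * j0) ≤ w)
    (htail : 2 * (2 * (r * j0)) * Fintype.card (G × Λ) ≤
      (r * Fintype.card Λ - 2 * (r * j0)) * (w - 2 * (r * j0)))
    (hF : 4 * 2 ^ Fintype.card G * D ^ (Fintype.card G * #I + t) ≤ 2 ^ (r * j0))
    (𝒜 : Finset (Finset (G × Λ)))
    (h𝒜 : ∀ U ∈ 𝒜, #U = w ∧ r ≤ #(Bad I j0 U)) :
    2 * #𝒜 ≤ #(𝒜.biUnion (Nb I j0 r w ψ R)) := by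
  classical
  rcases 𝒜.eq_empty_or_nonempty with rfl | ⟨U, hU⟩
  · simp
  set m := Fintype.card (G × Λ) with hm
  have hwm : w ≤ m := (h𝒜 U hU).1 ▸ card_le_univ U
  have hm0 : 0 < m := by
    obtain ⟨i, _⟩ := hI
    have h1 : 0 < Fintype.card Λ := Fintype.card_pos_iff.2 ⟨i⟩
    rw [hm, Fintype.card_prod]
    exact Nat.mul_pos (by omega) h1
  -- size of the class
  have c1 : 𝒜 ⊆ (powersetCard r (univ : Finset G)).biUnion fun Q =>
      (univ : Finset (Finset (G × Λ))).filter fun A => #A = w ∧ #(A ∩ Q ×ˢ univ) ≤ r * j0 := by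
    intro A hA
    obtain ⟨Q, hQ1, hQ2⟩ := exists_subset_card_eq (h𝒜 A hA).2
    simp only [mem_biUnion, mem_powersetCard, mem_filter, mem_univ, true_and]
    refine ⟨Q, ⟨subset_univ _, hQ2⟩, (h𝒜 A hA).1, ?_⟩
    rw [card_inter_prod, ← hQ2, ← smul_eq_mul, ← sum_const]
    refine sum_le_sum fun q hq => ?_
    have := hQ1 hq
    simp only [Bad, mem_filter, mem_univ, true_and] at this
    exact this.2.le
  have hz : r * Fintype.card Λ ≤ m := by
    rw [hm, Fintype.card_prod]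
    exact Nat.mul_le_mul_right _ hrn
  have c2 := tail_num m (r * Fintype.card Λ) w (r * j0) hm0 hz hs htail
  set τ := ∑ i ∈ range (r * j0 + 1),
    (r * Fintype.card Λ).choose i * (m - r * Fintype.card Λ).choose (w - i) with hτ
  have c3 : #𝒜 ≤ 2 ^ Fintype.card G * τ := by
    refine (card_le_card c1).trans ((card_biUnion_le_card_mul _ _ τ ?_).trans ?_)
    · intro Q hQ
      have := tail_card (Q ×ˢ (univ : Finset Λ)) w (r * j0)
      rwa [card_product, (mem_powersetCard.1 hQ).2, card_univ] at this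
    · refine Nat.mul_le_mul_right _ ?_
      rw [card_powersetCard, card_univ]
      exact Nat.choose_le_two_pow _ _
  -- targets
  let Dt : Finset (G × Λ) := univ ×ˢ I ∪ R U
  have hDt : #Dt ≤ Fintype.card G * #I + t := by
    refine (card_union_le _ _).trans (Nat.add_le_add (by simp) (hR U (h𝒜 U hU).1))
  have c4 : ((univ : Finset (Finset (G × Λ))).filter fun A => #A = w ∧ Dt ⊆ A) ⊆
      𝒜.biUnion (Nb I j0 r w ψ R) := by
    intro A hA
    simp only [mem_filter, mem_univ, true_and] at hA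
    refine mem_biUnion.2 ⟨U, hU, mem_Nb.2 ?_⟩
    refine good_of I hI j0 r w hr ψ h2 h3 _ _ _ univ hA.1 (by simpa using hrn) ?_ (subset_univ _)
      ?_ (fun q hq => absurd (mem_univ q) hq)
    · intro q _ i hi
      exact mem_row.2 (hA.2 (mem_union_left _ (mem_product.2 ⟨mem_univ _, hi⟩)))
    · intro p hp
      exact ⟨hA.2 (mem_union_right _ hp), mem_univ _⟩
  have c5 := (supersets_card Dt w (hDt.trans hu)).trans (card_le_card c4)
  have c6 := choose_le_pow_sub m w #Dt D (hDt.trans hu) hwm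
    (hD.trans (Nat.mul_le_mul_left _ (by omega)))
  have c7 : D ^ #Dt ≤ D ^ (Fintype.card G * #I + t) := Nat.pow_le_pow_right hDpos hDt
  set N := #(𝒜.biUnion (Nb I j0 r w ψ R))
  rw [← hm] at c5
  have key : (2 * #𝒜) * 2 ^ (r * j0) ≤ N * 2 ^ (r * j0) := by
    calc (2 * #𝒜) * 2 ^ (r * j0) ≤ (2 * (2 ^ Fintype.card G * τ)) * 2 ^ (r * j0) :=
          Nat.mul_le_mul_right _ (Nat.mul_le_mul_left _ c3)
      _ = 2 * 2 ^ Fintype.card G * (τ * 2 ^ (r * j0)) := by ring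
      _ ≤ 2 * 2 ^ Fintype.card G * (2 * m.choose w) := Nat.mul_le_mul_left _ c2
      _ ≤ 2 * 2 ^ Fintype.card G * (2 * (D ^ (Fintype.card G * #I + t) * N)) :=
          Nat.mul_le_mul_left _ (Nat.mul_le_mul_left _ (c6.trans (Nat.mul_le_mul c7 c5)))
      _ = N * (4 * 2 ^ Fintype.card G * D ^ (Fintype.card G * #I + t)) := by ring
      _ ≤ _ := Nat.mul_le_mul_left _ hF
  exact Nat.le_of_mul_le_mul_right key (by positivity)

theorem hall_exists {α : Type*} [DecidableEq α] (𝒰 : Set α) (p : α → Prop) (N : α → Finset α)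
    (hs : ∀ 𝒜 : Finset α, (∀ U ∈ 𝒜, U ∈ 𝒰 ∧ p U) → 2 * #𝒜 ≤ #(𝒜.biUnion N))
    (hb : ∀ 𝒜 : Finset α, (∀ U ∈ 𝒜, U ∈ 𝒰 ∧ ¬ p U) → 2 * #𝒜 ≤ #(𝒜.biUnion N)) :
    ∃ h : α → α, Set.InjOn h 𝒰 ∧ ∀ U ∈ 𝒰, h U ∈ N U := by
  classical
  have := (Finset.all_card_le_biUnion_card_iff_exists_injective (fun U : 𝒰 => N U.1)).1 (by
    intro s
    let 𝒜 := s.image Subtype.val
    have e1 : #𝒜 = #s := card_image_of_injective _ Subtype.val_injective
    have e2 : 𝒜.biUnion N = s.biUnion fun U => N U.1 := image_biUnion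
    have hU : ∀ U ∈ 𝒜, U ∈ 𝒰 := by
      intro U hU
      obtain ⟨V, _, rfl⟩ := mem_image.1 hU
      exact V.2
    have a1 := hs (𝒜.filter p) fun U h => ⟨hU U (mem_filter.1 h).1, (mem_filter.1 h).2⟩
    have a2 := hb (𝒜.filter fun U => ¬ p U) fun U h =>
      ⟨hU U (mem_filter.1 h).1, (mem_filter.1 h).2⟩
    have a3 : #((𝒜.filter p).biUnion N) ≤ #(𝒜.biUnion N) :=
      card_le_card (biUnion_subset_biUnion_of_subset_left _ (filter_subset _ _))
    have a4 : #((𝒜.filter fun U => ¬ p U).biUnion N) ≤ #(𝒜.biUnion N) :=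
      card_le_card (biUnion_subset_biUnion_of_subset_left _ (filter_subset _ _))
    have a5 := card_filter_add_card_filter_not (s := 𝒜) p
    rw [← e1, ← e2]
    omega)
  obtain ⟨f, hf1, hf2⟩ := this
  refine ⟨fun U => if hU : U ∈ 𝒰 then f ⟨U, hU⟩ else U, ?_, ?_⟩
  · intro a ha b hb e
    simp only [dif_pos ha, dif_pos hb] at e
    exact congrArg Subtype.val (hf1 e)
  · intro U hU
    simp only [dif_pos hU]
    exact hf2 _

theorem exists_pack (E : ℕ) (hE : 1 ≤ E) : ∃ n K w : ℕ, 1 ≤ w ∧ n * K = E * w ∧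
    ∃ σ : Equiv.Perm (Finset (Fin n × Fin K)), (∀ A, #(σ A) = #A) ∧
      ∀ A B, #A = w → #B = w → Disjoint A B → ¬ Disjoint (σ A) (σ B) := by
  classical
  obtain ⟨k, hk⟩ : ∃ k, k = 12 * E := ⟨_, rfl⟩
  obtain ⟨ρ, hρ⟩ : ∃ ρ, ρ = 2 ^ (4 * k + 10) * (4 * E) ^ (3 * k + 1) := ⟨_, rfl⟩
  obtain ⟨j0, hj0⟩ : ∃ j0, j0 = ρ + 2 + E * (k * ρ + 1) := ⟨_, rfl⟩
  obtain ⟨K, hK⟩ : ∃ K, K = k * j0 := ⟨_, rfl⟩
  obtain ⟨v, hv⟩ : ∃ v, v = 6 * K * K * ρ + 1 := ⟨_, rfl⟩
  obtain ⟨u, hu⟩ : ∃ u, u = E * v := ⟨_, rfl⟩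
  obtain ⟨r, hr⟩ : ∃ r, r = 3 * K * u := ⟨_, rfl⟩
  obtain ⟨n, hn⟩ : ∃ n, n = ρ * r := ⟨_, rfl⟩
  obtain ⟨w, hw⟩ : ∃ w, w = 12 * (n * j0) := ⟨_, rfl⟩
  have k2 : 12 ≤ k := by omega
  have ρ1 : 1 ≤ ρ := by rw [hρ]; exact Nat.succ_le_of_lt (by positivity)
  have jk : k + 1 ≤ j0 := by
    have h1 : k ≤ k * ρ := Nat.le_mul_of_pos_right _ ρ1
    have h2 : k * ρ + 1 ≤ E * (k * ρ + 1) := Nat.le_mul_of_pos_left _ hE
    omega
  have Kk : k ≤ K := by rw [hK]; exact Nat.le_mul_of_pos_right _ (by omega)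
  have u1 : 1 ≤ u := by rw [hu, hv]; exact Nat.succ_le_of_lt (by positivity)
  have hKt : K * (2 * u + 1) ≤ r := by rw [hr]; nlinarith
  have tr : 2 * u + 1 ≤ r := le_trans (Nat.le_mul_of_pos_left _ (by omega)) hKt
  have rn : r ≤ n := by rw [hn]; exact Nat.le_mul_of_pos_left _ ρ1
  have hm : n * K = E * w := by rw [hw, hK, hk]; ring
  have nj : n ≤ n * j0 := Nat.le_mul_of_pos_right _ (by omega)
  have nk : n * k ≤ n * j0 := Nat.mul_le_mul_left _ (by omega)
  have rj : r * j0 ≤ n * j0 := Nat.mul_le_mul_right _ rn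
  have w1 : 1 ≤ w := by omega
  have cΩ : Fintype.card (Fin n × Fin K) = E * w := by simp [hm]
  refine ⟨n, K, w, w1, hm, ?_⟩
  obtain ⟨I, -, hI⟩ := exists_subset_card_eq (s := (univ : Finset (Fin K))) (n := k)
    (by simpa using Kk)
  have hIne : I.Nonempty := card_pos.1 (by omega)
  obtain ⟨ψ, h1, h2, h3⟩ := localPerm I j0 (by omega) (by omega) (by simp [hI, hK])
  have wm : w ≤ E * w := Nat.le_mul_of_pos_left _ hE
  obtain ⟨J, hJ⟩ := expander (Ω := Fin n × Fin K) w u (by omega) (by omega) (by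
    rw [cΩ]
    have e1 : E * w - w = (E - 1) * w := by rw [Nat.sub_mul, one_mul]
    have e2 : u * u = E * (v * u) := by
      calc u * u = (E * v) * u := by rw [← hu]
        _ = _ := by ring
    have e3 : 2 * (E * w) + 1 ≤ v * u := by
      rw [← hm, hv, hn, hr]
      nlinarith
    have e4 : 2 ^ (v * u) * ((E - 1) ^ E) ^ (v * u) ≤ (E ^ E) ^ (v * u) := by
      rw [← mul_pow]
      exact Nat.pow_le_pow_left (bern E hE) _
    have e5 : 2 * 4 ^ (E * w) ≤ 2 ^ (v * u) := by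
      calc 2 * 4 ^ (E * w) = 2 ^ (2 * (E * w) + 1) := by
            rw [pow_succ, pow_mul 2 2, mul_comm]; rfl
        _ ≤ _ := Nat.pow_le_pow_right (by norm_num) e3
    rw [e1, mul_pow, mul_pow, ← mul_assoc]
    refine Nat.mul_lt_mul_of_pos_right ?_ (by positivity)
    rw [e2, pow_mul (E - 1) E, pow_mul E E]
    have e6 : 0 < (E ^ E) ^ (v * u) := by positivity
    have e7 := Nat.mul_le_mul_right (((E - 1) ^ E) ^ (v * u)) e5
    rw [mul_assoc] at e7
    omega)
  have hne : Nonempty (Fin n × Fin K) := Fintype.card_pos_iff.1 (by omega)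
  obtain ⟨x⟩ := hne
  have hy : ∀ U : Finset (Fin n × Fin K), ∃ y, #U = w → y ∈ f0 ψ U := by
    intro U
    by_cases hU : #U = w
    · obtain ⟨y, hy⟩ : (f0 ψ U).Nonempty := card_pos.1 (by rw [card_f0 ψ h1]; omega)
      exact ⟨y, fun _ => hy⟩
    · exact ⟨x, fun h => absurd h hU⟩
  choose y hy using hy
  let R : Finset (Fin n × Fin K) → Finset (Fin n × Fin K) := fun U =>
    insert x ((univ.filter fun y => ∀ i, J y i ∉ U) ∪ univ.image (J (y U)))
  have hR : ∀ U, #U = w → #(R U) ≤ 2 * u + 1 := by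
    intro U hU
    have a1 := card_insert_le x ((univ.filter fun y => ∀ i, J y i ∉ U) ∪ univ.image (J (y U)))
    have a2 := card_union_le (univ.filter fun y => ∀ i, J y i ∉ U) (univ.image (J (y U)))
    have a3 := hJ U hU
    have a4 : #(univ.image (J (y U))) ≤ u := card_image_le.trans (by simp)
    simp only [R]
    omega
  obtain ⟨h, hinj, hN⟩ := hall_exists
    {U | #U = w ∧ ¬ (r ≤ #(Str I U) ∧ #(Bad I j0 U) < r)} (fun U => #(Bad I j0 U) < r)
    (Nb I j0 r w ψ R)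
    (fun 𝒜 h𝒜 => by
      have b1 : (3 * k + 1) * r ≤ 3 * (n * j0) := by
        calc (3 * k + 1) * r ≤ (3 * j0) * n := Nat.mul_le_mul (by omega) rn
          _ = _ := by ring
      refine small_hall I hIne j0 r w (2 * u + 1) (6 * (n * j0)) (4 * E) (by omega) (by omega)
        ψ h2 h3 R hR (by simpa using hKt) (by simp only [Fintype.card_fin, hI]; omega)
        (by rw [hI]; omega) ?_ ?_ 𝒜 fun U hU => ?_
      · rw [cΩ, hI]
        calc E * w = 4 * E * (3 * (n * j0)) := by rw [hw]; ring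
          _ ≤ _ := Nat.mul_le_mul_left _ (by omega)
      · rw [hI, Fintype.card_fin, hn]
        refine le_trans ?_ (pow_le_choose_mul ρ r)
        rw [hρ, mul_pow (2 ^ (4 * k + 10)), ← pow_mul, ← pow_mul, ← mul_assoc]
        refine Nat.mul_le_mul_right _ ?_
        rw [← pow_succ']
        refine Nat.pow_le_pow_right (by norm_num) ?_
        have : (4 * k + 10) * r = (4 * k + 9) * r + r := by ring
        omega
      · obtain ⟨⟨a1, a2⟩, a3⟩ := h𝒜 U hU
        refine ⟨a1, ?_, a3⟩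
        by_contra hc
        exact a2 ⟨by omega, a3⟩)
    (fun 𝒜 h𝒜 => by
      refine big_hall I hIne j0 r w (2 * u + 1) (2 * E) (by omega) (by omega)
        ψ h2 h3 R hR (by simpa using rn) (by simp only [Fintype.card_fin, hI]; omega)
        ?_ (by omega) ?_ ?_ 𝒜 fun U hU => ⟨(h𝒜 U hU).1.1, not_lt.1 (h𝒜 U hU).2⟩
      · rw [cΩ, hI, Fintype.card_fin]
        calc E * w = 2 * E * (6 * (n * j0)) := by rw [hw]; ring
          _ ≤ _ := Nat.mul_le_mul_left _ (by omega)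
      · rw [cΩ, Fintype.card_fin]
        have b1 : r * K = 12 * (E * (r * j0)) := by rw [hK, hk]; ring
        have b2 : r * j0 ≤ E * (r * j0) := Nat.le_mul_of_pos_left _ hE
        calc 2 * (2 * (r * j0)) * (E * w) = (8 * (E * (r * j0))) * (6 * (n * j0)) := by
              rw [hw]; ring
          _ ≤ _ := Nat.mul_le_mul (by omega) (by omega)
      · rw [hI, Fintype.card_fin]
        have b1 : 2 * E ≤ 2 ^ E := by
          obtain ⟨e, rfl⟩ : ∃ e, E = e + 1 := ⟨E - 1, by omega⟩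
          have := @Nat.lt_two_pow_self e
          rw [pow_succ]
          omega
        calc 4 * 2 ^ n * (2 * E) ^ (n * k + (2 * u + 1))
            ≤ 4 * 2 ^ n * (2 ^ E) ^ (n * k + (2 * u + 1)) :=
              Nat.mul_le_mul_left _ (Nat.pow_le_pow_left b1 _)
          _ = 2 ^ (2 + n + E * (n * k + (2 * u + 1))) := by
              rw [← pow_mul, pow_add, pow_add]; norm_num
          _ ≤ _ := by
              refine Nat.pow_le_pow_right (by norm_num) ?_
              have b2 : E * (n * k + (2 * u + 1)) ≤ E * (n * k + r) :=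
                Nat.mul_le_mul_left _ (by omega)
              have b3 : r * j0 = n + 2 * r + E * (n * k + r) := by rw [hj0, hn]; ring
              omega)
  exact assemble I j0 r w u (by omega) ψ h1 h2 h3 J x R (fun U => mem_insert_self _ _)
    (fun U z hz => mem_insert_of_mem (mem_union_left _ (by simpa using hz)))
    (fun U hU => ⟨y U, hy U hU, fun i =>
      mem_insert_of_mem (mem_union_right _ (mem_image.2 ⟨i, mem_univ _, rfl⟩))⟩)
    h hinj (fun U a1 a2 => mem_Nb.1 (hN U ⟨a1, a2⟩))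

end Pool.Agent.H245Z.Kn
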