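import Mathlib

set_option autoImplicit false

namespace Pool.Agent.H245Z.SqPow

open Finset

lemma card_le_of_modEq (a M q : ℕ) (hq : 0 < q) (S : Finset ℕ) (hS : S ⊆ Ico a (a + M))
    (h : ∀ x ∈ S, ∀ y ∈ S, x ≡ y [MOD q]) : S.card ≤ M / q + 1 := by
  have : S.card ≤ (range (M / q + 1)).card := by
    apply Finset.card_le_card_of_injOn (fun x => (x - a) / q)
    · intro x hx
      have := hS hx
      simp only [mem_Ico] at this
      simp only [coe_range, Set.mem_Iio]
      have : (x - a) / q ≤ M / q := Nat.div_le_div_right (by omega)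
      omega
    · intro x hx y hy hxy
      have hx' := hS hx
      have hy' := hS hy
      simp only [mem_Ico] at hx' hy'
      have h1 := h x hx y hy
      have h2 : (x - a) ≡ (y - a) [MOD q] := by
        apply Nat.ModEq.add_right_cancel' a
        rw [Nat.sub_add_cancel hx'.1, Nat.sub_add_cancel hy'.1]
        exact h1
      have e1 := Nat.div_add_mod (x - a) q
      have e2 := Nat.div_add_mod (y - a) q
      simp only at hxy
      unfold Nat.ModEq at h2
      rw [hxy, h2] at e1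
      omega
  simpa using this

lemma dyadic_count (j : ℕ) :
    j * ((Ioc (2 ^ j) (2 ^ (j + 1))).filter Nat.Prime).card ≤ 2 ^ (j + 2) := by
  set S := (Ioc (2 ^ j) (2 ^ (j + 1))).filter Nat.Prime with hS
  have h1 : (2 ^ j) ^ S.card ≤ ∏ p ∈ S, p := by
    apply Finset.pow_card_le_prod
    intro p hp
    simp only [hS, mem_filter, mem_Ioc] at hp
    exact hp.1.1.le
  have h2 : ∏ p ∈ S, p ≤ primorial (2 ^ (j + 1)) := by
    unfold primorial
    apply Finset.prod_le_prod_of_subset_of_one_le'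
    · intro p hp
      simp only [hS, mem_filter, mem_Ioc] at hp
      simp only [mem_filter, mem_range]
      exact ⟨by omega, hp.2⟩
    · intro p hp _
      simp only [mem_filter] at hp
      exact hp.2.one_le
  have h3 := primorial_le_four_pow (2 ^ (j + 1))
  have h4 : (2 ^ j) ^ S.card ≤ 4 ^ 2 ^ (j + 1) := h1.trans (h2.trans h3)
  have h5 : (4 : ℕ) ^ 2 ^ (j + 1) = 2 ^ (2 ^ (j + 2)) := by
    rw [show (4 : ℕ) = 2 ^ 2 by norm_num, ← pow_mul]
    congr 1
    ring
  rw [h5, ← pow_mul] at h4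
  exact (Nat.pow_le_pow_iff_right (by norm_num)).1 h4

lemma dyadic_sum (j : ℕ) (hj : 0 < j) :
    ∑ p ∈ (Ioc (2 ^ j) (2 ^ (j + 1))).filter Nat.Prime, (1 : ℝ) / (p : ℝ) ^ 2
      ≤ 4 / (j * 2 ^ j) := by
  set S := (Ioc (2 ^ j) (2 ^ (j + 1))).filter Nat.Prime with hS
  have h1 : ∑ p ∈ S, (1 : ℝ) / (p : ℝ) ^ 2 ≤ S.card • ((1 : ℝ) / (2 ^ j) ^ 2) := by
    apply Finset.sum_le_card_nsmul
    intro p hp
    simp only [hS, mem_filter, mem_Ioc] at hp
    have : ((2 : ℝ) ^ j) ≤ p := by exact_mod_cast hp.1.1.le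
    apply one_div_le_one_div_of_le (by positivity)
    gcongr
  have h2 : (j : ℝ) * S.card ≤ 2 ^ (j + 2) := by exact_mod_cast dyadic_count j
  have hj' : (0 : ℝ) < j := by exact_mod_cast hj
  refine h1.trans ?_
  rw [nsmul_eq_mul, mul_one_div, div_le_div_iff₀ (by positivity) (by positivity)]
  have : (2 : ℝ) ^ (j + 2) = 4 * 2 ^ j := by ring
  have hp : (0 : ℝ) < 2 ^ j := by positivity
  nlinarith

lemma tail_sum (t : ℕ) (ht : 0 < t) (d : ℕ) :
    ∑ p ∈ (Ioc (2 ^ t) (2 ^ (t + d))).filter Nat.Prime, (1 : ℝ) / (p : ℝ) ^ 2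
      ≤ 8 / t * (1 / 2 ^ t - 1 / 2 ^ (t + d)) := by
  induction d with
  | zero => simp
  | succ d ih =>
    have hsplit : (Ioc (2 ^ t) (2 ^ (t + (d + 1)))).filter Nat.Prime =
        (Ioc (2 ^ t) (2 ^ (t + d))).filter Nat.Prime ∪
          (Ioc (2 ^ (t + d)) (2 ^ (t + d + 1))).filter Nat.Prime := by
      rw [← filter_union, Finset.Ioc_union_Ioc_eq_Ioc]
      · rfl
      · exact Nat.pow_le_pow_right (by norm_num) (by omega)
      · exact Nat.pow_le_pow_right (by norm_num) (by omega)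
    have hdisj : Disjoint ((Ioc (2 ^ t) (2 ^ (t + d))).filter Nat.Prime)
        ((Ioc (2 ^ (t + d)) (2 ^ (t + d + 1))).filter Nat.Prime) := by
      rw [Finset.disjoint_left]
      intro p hp hq
      simp only [mem_filter, mem_Ioc] at hp hq
      omega
    rw [hsplit, Finset.sum_union hdisj]
    have h2 := dyadic_sum (t + d) (by omega)
    have ht' : (0 : ℝ) < t := by exact_mod_cast ht
    have h3 : (4 : ℝ) / (((t + d : ℕ) : ℝ) * 2 ^ (t + d)) ≤ 4 / (t * 2 ^ (t + d)) := by
      apply div_le_div_of_nonneg_left (by norm_num) (by positivity)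
      have : (t : ℝ) ≤ ((t + d : ℕ) : ℝ) := by exact_mod_cast Nat.le_add_right t d
      gcongr
    have h4 : (4 : ℝ) / (t * 2 ^ (t + d)) = 8 / t * (1 / 2 ^ (t + d) - 1 / 2 ^ (t + (d + 1))) := by
      rw [show t + (d + 1) = t + d + 1 by ring, pow_succ]
      field_simp
      ring
    have h5 : 8 / (t : ℝ) * (1 / 2 ^ t - 1 / 2 ^ (t + (d + 1))) =
        8 / t * (1 / 2 ^ t - 1 / 2 ^ (t + d)) + 8 / t * (1 / 2 ^ (t + d) - 1 / 2 ^ (t + (d + 1))) := by
      ring
    rw [h5]
    linarith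

/-- The product of the odd primes up to `z`. -/
def oddP (z : ℕ) : ℕ := ∏ p ∈ (range (z + 1)).filter (fun p => p.Prime ∧ p ≠ 2), p

lemma oddP_le (z : ℕ) : oddP z ≤ 4 ^ z := by
  refine le_trans ?_ (primorial_le_four_pow z)
  unfold oddP primorial
  apply Finset.prod_le_prod_of_subset_of_one_le'
  · intro p hp
    simp only [mem_filter] at hp ⊢
    exact ⟨hp.1, hp.2.1⟩
  · intro p hp _
    simp only [mem_filter] at hp
    exact hp.2.one_le

lemma oddP_pos (z : ℕ) : 0 < oddP z := by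
  unfold oddP
  apply Finset.prod_pos
  intro p hp
  simp only [mem_filter] at hp
  exact hp.2.1.pos

lemma dvd_oddP {z p : ℕ} (hp : p.Prime) (h2 : p ≠ 2) (hz : p ≤ z) : p ∣ oddP z := by
  unfold oddP
  apply Finset.dvd_prod_of_mem
  simp only [mem_filter, mem_range]
  exact ⟨by omega, hp, h2⟩

lemma coprime_oddP {z p : ℕ} (hp : p.Prime) (h : p = 2 ∨ z < p) : Nat.Coprime p (oddP z) := by
  unfold oddP
  apply Nat.Coprime.prod_right
  intro q hq
  simp only [mem_filter, mem_range] at hq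
  rw [Nat.coprime_primes hp hq.2.1]
  rcases h with h | h
  · rw [h]; exact fun e => hq.2.2 e.symm
  · omega

lemma exists_r (z : ℕ) : ∃ r < 4, (oddP z * r) % 4 = 3 := by
  have h : Nat.Coprime 2 (oddP z) := coprime_oddP Nat.prime_two (Or.inl rfl)
  have hodd : oddP z % 2 = 1 := by
    have h2 : ¬ 2 ∣ oddP z := (Nat.Prime.coprime_iff_not_dvd Nat.prime_two).1 h
    omega
  have : oddP z % 4 = 1 ∨ oddP z % 4 = 3 := by omega
  rcases this with h | h
  · exact ⟨3, by norm_num, by rw [Nat.mul_mod, h]⟩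
  · exact ⟨1, by norm_num, by simpa using h⟩

theorem exists_good (t : ℕ) (ht : 256 ≤ t) :
    ∃ n : ℕ, t ≤ n ∧ ∀ k : ℕ, 2 ^ k < n → Squarefree (n - 2 ^ k) := by
  classical
  set z := 2 ^ t with hz
  have htz : t < z := Nat.lt_two_pow_self
  set P := oddP z with hP
  obtain ⟨r, hr4, hr⟩ := exists_r z
  rw [← hP] at hr
  set M := 2 ^ (5 * z) with hM
  have hPpos : 0 < P := oddP_pos z
  have hPle : P ≤ 2 ^ (2 * z) := by
    have := oddP_le z
    rwa [show (4 : ℕ) = 2 ^ 2 by norm_num, ← pow_mul] at this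
  set PR := (Ioc z (2 ^ (4 * z))).filter Nat.Prime with hPR
  set bad : ℕ → ℕ → Finset ℕ := fun k p =>
    (Ico M (M + M)).filter (fun m => P * (4 * m + r) ≡ 2 ^ k [MOD p ^ 2]) with hbad
  have hcard : ∀ k, ∀ p ∈ PR, ((bad k p).card : ℝ) ≤ M * (1 / (p : ℝ) ^ 2) + 1 := by
    intro k p hp
    simp only [hPR, mem_filter, mem_Ioc] at hp
    have hpp := hp.2
    have h1 : (bad k p).card ≤ M / p ^ 2 + 1 := by
      apply card_le_of_modEq M M (p ^ 2) (pow_pos hpp.pos 2) _ (filter_subset _ _)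
      intro x hx y hy
      simp only [hbad, mem_filter] at hx hy
      have h2 : P * (4 * x + r) ≡ P * (4 * y + r) [MOD p ^ 2] := hx.2.trans hy.2.symm
      have hc : Nat.Coprime (p ^ 2) P :=
        Nat.Coprime.pow_left 2 (coprime_oddP hpp (Or.inr hp.1.1))
      have h3 : 4 * x + r ≡ 4 * y + r [MOD p ^ 2] := Nat.ModEq.cancel_left_of_coprime hc h2
      have h4 : 4 * x ≡ 4 * y [MOD p ^ 2] := Nat.ModEq.add_right_cancel' r h3
      have hc4 : Nat.Coprime (p ^ 2) 4 := by
        apply Nat.Coprime.pow_left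
        rw [show (4 : ℕ) = 2 ^ 2 by norm_num]
        apply Nat.Coprime.pow_right
        rw [Nat.coprime_primes hpp Nat.prime_two]
        omega
      exact Nat.ModEq.cancel_left_of_coprime hc4 h4
    have h2 : ((M / p ^ 2 : ℕ) : ℝ) ≤ M / (p : ℝ) ^ 2 := by
      have := @Nat.cast_div_le ℝ _ _ _ M (p ^ 2)
      simpa using this
    have h3 : ((bad k p).card : ℝ) ≤ ((M / p ^ 2 : ℕ) : ℝ) + 1 := by exact_mod_cast h1
    rw [mul_one_div]
    linarith
  have htail : ∑ p ∈ PR, (1 : ℝ) / (p : ℝ) ^ 2 ≤ 8 / t * (1 / z) := by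
    have h1 := tail_sum t (by omega) (4 * z - t)
    rw [show t + (4 * z - t) = 4 * z by omega] at h1
    refine h1.trans ?_
    have : ((z : ℕ) : ℝ) = 2 ^ t := by rw [hz]; push_cast; ring
    rw [this]
    have : (0 : ℝ) ≤ 1 / 2 ^ (4 * z) := by positivity
    have h8 : (0 : ℝ) ≤ 8 / t := by positivity
    apply mul_le_mul_of_nonneg_left _ h8
    linarith
  have hPRcard : (PR.card : ℝ) ≤ 2 ^ (4 * z) := by
    have : PR.card ≤ 2 ^ (4 * z) := by
      refine (card_filter_le _ _).trans ?_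
      simp
    exact_mod_cast this
  set B := (range (8 * z)).biUnion (fun k => PR.biUnion (fun p => bad k p)) with hB
  have hBcard : (B.card : ℝ) ≤ 8 * z * (M * (8 / t * (1 / z)) + 2 ^ (4 * z)) := by
    have h1 : B.card ≤ ∑ k ∈ range (8 * z), ∑ p ∈ PR, (bad k p).card := by
      refine card_biUnion_le.trans ?_
      apply Finset.sum_le_sum
      intro k _
      exact card_biUnion_le
    have h2 : (B.card : ℝ) ≤ ∑ k ∈ range (8 * z), ∑ p ∈ PR, ((bad k p).card : ℝ) := by
      exact_mod_cast h1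
    refine h2.trans ?_
    have h3 : ∀ k ∈ range (8 * z), ∑ p ∈ PR, ((bad k p).card : ℝ) ≤
        M * (8 / t * (1 / z)) + 2 ^ (4 * z) := by
      intro k _
      refine (Finset.sum_le_sum (hcard k)).trans ?_
      rw [Finset.sum_add_distrib, ← Finset.mul_sum]
      simp only [sum_const, nsmul_eq_mul, mul_one]
      have : (M : ℝ) * ∑ p ∈ PR, (1 : ℝ) / (p : ℝ) ^ 2 ≤ M * (8 / t * (1 / z)) :=
        mul_le_mul_of_nonneg_left htail (by positivity)
      linarith
    refine (Finset.sum_le_card_nsmul _ _ _ h3).trans ?_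
    rw [card_range, nsmul_eq_mul]
    push_cast
    exact le_rfl
  have hzpos : (0 : ℝ) < z := by exact_mod_cast (by omega : 0 < z)
  have htpos : (256 : ℝ) ≤ t := by exact_mod_cast ht
  have hMpos : (0 : ℝ) < M := by rw [hM]; positivity
  have hlt : (B.card : ℝ) < M := by
    have e1 : (8 : ℝ) * z * (M * (8 / t * (1 / z))) = 64 / t * M := by
      field_simp
      ring
    have e2 : (64 : ℝ) / t * M ≤ 1 / 4 * M := by
      apply mul_le_mul_of_nonneg_right _ hMpos.le
      rw [div_le_div_iff₀ (by linarith) (by norm_num)]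
      linarith
    have e3 : 32 * z ≤ 2 ^ z := by
      have hz8 : 256 ≤ z := by omega
      obtain ⟨w, hw⟩ : ∃ w, z = w + 10 := ⟨z - 10, by omega⟩
      have : w < 2 ^ w := Nat.lt_two_pow_self
      rw [hw, pow_add]
      omega
    have e4 : (8 : ℝ) * z * 2 ^ (4 * z) ≤ 1 / 4 * M := by
      have : (32 : ℝ) * z ≤ 2 ^ z := by exact_mod_cast e3
      have hM' : (M : ℝ) = 2 ^ z * 2 ^ (4 * z) := by
        rw [hM]; push_cast; ring
      rw [hM']
      have : (0 : ℝ) < 2 ^ (4 * z) := by positivity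
      nlinarith
    have : (B.card : ℝ) ≤ 1 / 2 * M := by
      rw [mul_add, e1] at hBcard
      linarith
    linarith
  have hlt' : B.card < (Ico M (M + M)).card := by
    have : B.card < M := by exact_mod_cast hlt
    simpa using this
  obtain ⟨m, hm, hmB⟩ := Finset.exists_mem_notMem_of_card_lt_card hlt'
  simp only [mem_Ico] at hm
  have hMz : z < M := by
    have : 5 * z < 2 ^ (5 * z) := Nat.lt_two_pow_self
    omega
  refine ⟨P * (4 * m + r), ?_, ?_⟩
  · have : 4 * m + r ≤ P * (4 * m + r) := Nat.le_mul_of_pos_left _ hPpos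
    omega
  · intro k hk
    have hn : P * (4 * m + r) < 2 ^ (8 * z) := by
      have h1 : 4 * m + r < 8 * M := by omega
      have h2 : P * (4 * m + r) < 2 ^ (2 * z) * (8 * M) :=
        Nat.mul_lt_mul_of_le_of_lt hPle h1 (by positivity)
      have h3 : 2 ^ (2 * z) * (8 * M) = 2 ^ (7 * z + 3) := by
        rw [hM]; ring
      have h4 : 2 ^ (7 * z + 3) ≤ 2 ^ (8 * z) := Nat.pow_le_pow_right (by norm_num) (by omega)
      omega
    have hk8 : k < 8 * z := (Nat.pow_lt_pow_iff_right (by norm_num : 1 < 2)).1 (hk.trans hn)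
    rw [Nat.squarefree_iff_prime_squarefree]
    intro p hp hdiv
    have hmod : P * (4 * m + r) ≡ 2 ^ k [MOD p ^ 2] := by
      rw [pow_two]
      exact ((Nat.modEq_iff_dvd' hk.le).2 hdiv).symm
    by_cases hpz : p ≤ z
    · by_cases h2 : p = 2
      · subst h2
        have h3 : (P * (4 * m + r)) % 4 = 3 := by
          rw [mul_add, show P * (4 * m) = 4 * (P * m) by ring]
          omega
        unfold Nat.ModEq at hmod
        rw [show (2 : ℕ) ^ 2 = 4 by norm_num, h3] at hmod
        rcases k with _ | _ | k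
        · norm_num at hmod
        · norm_num at hmod
        · rw [show (2 : ℕ) ^ (k + 1 + 1) = 4 * 2 ^ k by ring] at hmod
          omega
      · have h3 : p ∣ P * (4 * m + r) := (dvd_oddP hp h2 hpz).mul_right _
        have h4 : P * (4 * m + r) ≡ 2 ^ k [MOD p] := hmod.of_dvd (dvd_pow_self p (by norm_num))
        have h5 : p ∣ 2 ^ k := (h4.dvd_iff dvd_rfl).1 h3
        have h6 : p ∣ 2 := hp.dvd_of_dvd_pow h5
        exact h2 ((Nat.prime_dvd_prime_iff_eq hp Nat.prime_two).1 h6)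
    · apply hmB
      simp only [hB, mem_biUnion, mem_range]
      refine ⟨k, hk8, p, ?_, ?_⟩
      · simp only [hPR, mem_filter, mem_Ioc]
        refine ⟨⟨by omega, ?_⟩, hp⟩
        have h1 : p * p ≤ P * (4 * m + r) - 2 ^ k := Nat.le_of_dvd (by omega) hdiv
        have h2 : p * p < 2 ^ (4 * z) * 2 ^ (4 * z) := by
          rw [← pow_add, show 4 * z + 4 * z = 8 * z by ring]
          exact lt_of_le_of_lt (h1.trans (Nat.sub_le _ _)) hn
        exact (Nat.mul_self_lt_mul_self_iff.1 h2).le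
      · simp only [hbad, mem_filter, mem_Ico]
        exact ⟨hm, hmod⟩

end Pool.Agent.H245Z.SqPow
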