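import Mathlib

set_option autoImplicit false

namespace Pool.Agent.H245Z.Zm

open Polynomial
open scoped TensorProduct

theorem finite_of_finite_homs (k F Ω : Type*) [Field k] [CommRing F] [Algebra k F]
    [Algebra.FiniteType k F] [Field Ω] [IsAlgClosed Ω] [Algebra k Ω] [Finite (F →ₐ[k] Ω)] :
    Module.Finite k F := by
  classical
  rw [Module.finite_iff_krullDimLE_zero, Ring.krullDimLE_zero_iff]
  have hJ : IsJacobsonRing F := isJacobsonRing_of_finiteType (A := k)
  have hmax : ∀ M : Ideal F, M.IsMaximal → ∃ φ : F →ₐ[k] Ω, RingHom.ker φ.toRingHom = M := by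
    intro M hM
    let := Ideal.Quotient.field M
    have : Module.Finite k (F ⧸ M) := finite_of_finite_type_of_isJacobsonRing k (F ⧸ M)
    let l : (F ⧸ M) →ₐ[k] Ω := IsAlgClosed.lift
    refine ⟨l.comp (Ideal.Quotient.mkₐ k M), ?_⟩
    ext x
    simp [RingHom.mem_ker, Ideal.Quotient.eq_zero_iff_mem]
  intro P hP
  have := Fintype.ofFinite (F →ₐ[k] Ω)
  let s : Finset (F →ₐ[k] Ω) := Finset.univ.filter fun φ =>
    (RingHom.ker φ.toRingHom).IsMaximal ∧ P ≤ RingHom.ker φ.toRingHom
  have h1 : s.inf (fun φ => RingHom.ker φ.toRingHom) ≤ P := by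
    have h2 : P.jacobson = P := hJ.out hP.isRadical
    rw [← h2]
    refine le_sInf ?_
    rintro M ⟨hPM, hM⟩
    obtain ⟨φ, rfl⟩ := hmax M hM
    exact Finset.inf_le (f := fun φ : F →ₐ[k] Ω => RingHom.ker φ.toRingHom)
      (Finset.mem_filter.2 ⟨Finset.mem_univ _, hM, hPM⟩)
  obtain ⟨φ, hφ, h⟩ := hP.inf_le'.1 h1
  have h3 := (Finset.mem_filter.1 hφ).2
  rw [le_antisymm h3.2 h]
  exact h3.1

theorem zmp (R T Ω : Type*) [CommRing R] [CommRing T] [Algebra R T] [Algebra.FiniteType R T]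
    [Field Ω] [IsAlgClosed Ω] [Algebra R Ω] [Finite (T →ₐ[R] Ω)] (φ : T →ₐ[R] Ω) :
    ∃ r : T, φ r ≠ 0 ∧ IsIntegral R r ∧ ∀ x, ∃ m, IsIntegral R (r ^ m * x) := by
  let p : Ideal R := RingHom.ker (algebraMap R Ω)
  have : p.IsPrime := RingHom.ker_isPrime _
  let q : Ideal T := RingHom.ker φ.toRingHom
  have : q.IsPrime := RingHom.ker_isPrime _
  have : q.LiesOver p := ⟨by
    ext x
    simp [p, q, RingHom.mem_ker, Ideal.under]⟩
  let j : p.ResidueField →ₐ[R] Ω := Ideal.ResidueField.liftₐ p (Algebra.ofId R Ω) le_rfl (by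
    intro x hx
    simpa [IsUnit.mem_submonoid_iff, p, RingHom.mem_ker] using hx)
  let : Algebra p.ResidueField Ω := j.toRingHom.toAlgebra
  have : IsScalarTower R p.ResidueField Ω := .of_algebraMap_eq fun x => (j.commutes x).symm
  have : Finite (p.Fiber T →ₐ[p.ResidueField] Ω) := by
    refine Finite.of_injective (β := T →ₐ[R] Ω)
      (fun ψ => (ψ.restrictScalars R).comp Algebra.TensorProduct.includeRight) ?_
    intro a b h
    exact Algebra.TensorProduct.ext (Subsingleton.elim _ _) h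
  have : Module.Finite p.ResidueField (p.Fiber T) := finite_of_finite_homs _ _ Ω
  let Φ : p.Fiber T →ₐ[p.ResidueField] Ω :=
    Algebra.TensorProduct.lift (Algebra.ofId _ _) φ fun _ _ => .all _ _
  let Q : Ideal (p.Fiber T) := RingHom.ker Φ.toRingHom
  have : Q.IsPrime := RingHom.ker_isPrime _
  have : Algebra.QuasiFiniteAt R q := .of_quasiFiniteAt_residueField p q Q (by
    ext x
    simp [Q, q, Φ, RingHom.mem_ker])
  exact Algebra.zariskisMainProperty_iff.1 (Algebra.ZariskisMainProperty.of_finiteType (R := R) q)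

theorem exists_sep (R T Ω : Type*) [CommRing R] [CommRing T] [Algebra R T]
    [Algebra.FiniteType R T] [Algebra ℚ R] [Algebra ℚ T] [IsScalarTower ℚ R T]
    [Field Ω] [IsAlgClosed Ω] [CharZero Ω] [Algebra R Ω] [Finite (T →ₐ[R] Ω)] :
    ∃ s : T, IsIntegral R s ∧ Function.Injective fun φ : T →ₐ[R] Ω => φ s := by
  let p : {z : (T →ₐ[R] Ω) × (T →ₐ[R] Ω) // z.1 ≠ z.2} → Submodule ℚ (integralClosure R T) :=
    fun z =>
      { carrier := {x | z.1.1 x = z.1.2 x}
        add_mem' := fun {a b} ha hb => by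
          simp only [Set.mem_ofPred_eq, Subalgebra.coe_add, map_add] at ha hb ⊢
          rw [ha, hb]
        zero_mem' := by simp
        smul_mem' := fun c x hx => by
          simp only [Set.mem_ofPred_eq, Subalgebra.coe_smul, map_rat_smul] at hx ⊢
          rw [hx] }
  obtain ⟨s, hs⟩ := Submodule.exists_forall_notMem_of_forall_ne_top p (by
    rintro ⟨⟨a, b⟩, hab⟩ htop
    apply hab
    have h : ∀ x, IsIntegral R x → a x = b x := fun x hx => by
      have : (⟨x, hx⟩ : integralClosure R T) ∈ p ⟨(a, b), hab⟩ := by rw [htop]; trivial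
      exact this
    obtain ⟨r, h1, h2, h3⟩ := zmp R T Ω a
    ext x
    obtain ⟨m, hm⟩ := h3 x
    have e := h _ hm
    rw [map_mul, map_mul, map_pow, map_pow, ← h r h2] at e
    exact mul_left_cancel₀ (pow_ne_zero _ h1) e)
  refine ⟨s.1, s.2, fun a b h => ?_⟩
  by_contra hab
  exact hs ⟨(a, b), hab⟩ h

theorem upper (R T Ω : Type*) [CommRing R] [CommRing T] [Algebra R T]
    [Field Ω] [Algebra R Ω] (s : T) (hs : IsIntegral R s)
    (hinj : Function.Injective fun φ : T →ₐ[R] Ω => φ s) :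
    (Set.univ : Set (T →ₐ[R] Ω)).encard ≤ (minpoly R s).natDegree := by
  have h1 : (fun φ : T →ₐ[R] Ω => φ s) '' Set.univ ⊆ (minpoly R s).rootSet Ω := by
    rintro _ ⟨φ, -, rfl⟩
    rw [(minpoly.monic hs).mem_rootSet]
    simp only
    rw [aeval_algHom_apply, minpoly.aeval, map_zero]
  rw [← hinj.encard_image]
  refine (Set.encard_le_encard h1).trans ?_
  rw [← (rootSet_finite _ _).cast_ncard_eq]
  exact_mod_cast ncard_rootSet_le _ _

theorem lower (R T Ω : Type*) [CommRing R] [IsDomain R] [IsIntegrallyClosed R] [CharZero R]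
    [CommRing T] [IsDomain T] [Algebra R T] [FaithfulSMul R T] [Algebra.IsAlgebraic R T]
    [Field Ω] [IsAlgClosed Ω] [Algebra R Ω] [FaithfulSMul R Ω] (s : T) (hs : IsIntegral R s) :
    ((minpoly R s).natDegree : ℕ∞) ≤ (Set.univ : Set (T →ₐ[R] Ω)).encard := by
  let K := FractionRing R
  let L := FractionRing T
  let : Algebra K L := FractionRing.liftAlgebra R L
  have := FractionRing.isScalarTower_liftAlgebra R L
  let : Algebra K Ω := FractionRing.liftAlgebra R Ω
  have := FractionRing.isScalarTower_liftAlgebra R Ω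
  have : Algebra.IsAlgebraic K L := by
    have := (IsFractionRing.isAlgebraic_iff' R T L).1 inferInstance
    exact ⟨fun _ ↦ (IsFractionRing.isAlgebraic_iff R K L).1 (Algebra.IsAlgebraic.isAlgebraic _)⟩
  have e1 := minpoly.isIntegrallyClosed_eq_field_fractions K L hs
  have e2 := Algebra.IsAlgebraic.range_eval_eq_rootSet_minpoly (F := K) (K := L) Ω
    (algebraMap T L s)
  have hint : IsIntegral K (algebraMap T L s) := (Algebra.IsAlgebraic.isAlgebraic _).isIntegral
  have e3 := card_rootSet_eq_natDegree (K := Ω) (minpoly.irreducible hint).separable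
    (IsAlgClosed.splits _)
  have e4 : (minpoly K (algebraMap T L s)).natDegree = (minpoly R s).natDegree := by
    rw [e1, (minpoly.monic hs).natDegree_map]
  have h1 : (minpoly K (algebraMap T L s)).rootSet Ω ⊆
      (fun φ : T →ₐ[R] Ω => φ s) '' Set.univ := by
    rw [← e2]
    rintro _ ⟨ψ, rfl⟩
    exact ⟨(ψ.restrictScalars R).comp ((Algebra.ofId T L).restrictScalars R), trivial, rfl⟩
  refine le_trans ?_ ((Set.encard_le_encard h1).trans (Set.encard_image_le _ _))
  rw [← e4, ← e3, Set.encard_eq_coe_toFinset_card, Set.toFinset_card]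

/-- ring homomorphisms over a given one -/
def overEquiv (R T Ω : Type*) [CommRing R] [CommRing T] [Algebra R T] [CommRing Ω] [Algebra R Ω] :
    (T →ₐ[R] Ω) ≃ {φ : T →+* Ω | φ.comp (algebraMap R T) = algebraMap R Ω} where
  toFun φ := ⟨φ.toRingHom, φ.comp_algebraMap⟩
  invFun φ := ⟨φ.1, fun r => DFunLike.congr_fun φ.2 r⟩
  left_inv _ := rfl
  right_inv _ := rfl

/-- a finite fibre has at most as many points as the generic fibre -/
theorem fibre_le (R T Ω : Type*) [CommRing R] [IsDomain R] [IsIntegrallyClosed R] [CharZero R]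
    [CommRing T] [IsDomain T] [Algebra R T] [FaithfulSMul R T] [Algebra.FiniteType R T]
    [Algebra ℚ R] [Algebra ℚ T] [IsScalarTower ℚ R T]
    [Field Ω] [IsAlgClosed Ω] [CharZero Ω] (ψ χ : R →+* Ω) (hχ : Function.Injective χ)
    (hfin : {φ : T →+* Ω | φ.comp (algebraMap R T) = ψ}.Finite) :
    {φ : T →+* Ω | φ.comp (algebraMap R T) = ψ}.encard ≤
      {φ : T →+* Ω | φ.comp (algebraMap R T) = χ}.encard := by
  rcases {φ : T →+* Ω | φ.comp (algebraMap R T) = ψ}.eq_empty_or_nonempty with he | ⟨φ0, hφ0⟩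
  · rw [he]; simp
  have h1 : Algebra.IsAlgebraic R T ∧ ∃ s : T, IsIntegral R s ∧
      {φ : T →+* Ω | φ.comp (algebraMap R T) = ψ}.encard ≤ (minpoly R s).natDegree := by
    let := ψ.toAlgebra
    have : Finite {φ : T →+* Ω | φ.comp (algebraMap R T) = algebraMap R Ω} := hfin
    have : Finite (T →ₐ[R] Ω) := Finite.of_equiv _ (overEquiv R T Ω).symm
    constructor
    · obtain ⟨r, h1, h2, h3⟩ := zmp R T Ω ((overEquiv R T Ω).symm ⟨φ0, hφ0⟩)
      have hr : r ≠ 0 := fun h => h1 (by rw [h, map_zero])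
      refine ⟨fun x => ?_⟩
      obtain ⟨m, hm⟩ := h3 x
      exact IsAlgebraic.of_mul (mem_nonZeroDivisors_of_ne_zero (pow_ne_zero m hr))
        (h2.pow m).isAlgebraic hm.isAlgebraic
    · obtain ⟨s, h1, h2⟩ := exists_sep R T Ω
      refine ⟨s, h1, le_trans (le_of_eq ?_) (upper R T Ω s h1 h2)⟩
      rw [Set.encard_univ, ENat.card_congr (overEquiv R T Ω)]
      rfl
  obtain ⟨h1, s, h2, h3⟩ := h1
  let := χ.toAlgebra
  have : FaithfulSMul R Ω := (faithfulSMul_iff_algebraMap_injective R Ω).2 hχ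
  refine h3.trans ((lower R T Ω s h2).trans (le_of_eq ?_))
  rw [Set.encard_univ, ENat.card_congr (overEquiv R T Ω)]
  rfl

end Pool.Agent.H245Z.Zm
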