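import Pool.Agent.H245Z.ZmA
import Pool.Agent.H632R2.Laman
import Pool.Agent.H626R2.PJac

set_option autoImplicit false

namespace Pool.Agent.H245Z.Zm

open MvPolynomial

theorem exists_sq (z : ℂ) : ∃ w : ℂ, w * w = z := by
  obtain ⟨w, hw⟩ := IsAlgClosed.exists_pow_nat_eq z (n := 2) (by norm_num)
  exact ⟨w, by rw [← hw]; ring⟩

theorem gram1 {V : Type*} (A : V → V → ℂ) (hs : ∀ u v, A u v = A v u)
    (h2 : ∀ u1 u2 v1 v2, A u1 v1 * A u2 v2 - A u1 v2 * A u2 v1 = 0) :
    ∃ b : V → ℂ, ∀ u v, A u v = b u * b v := by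
  by_cases h : ∃ o, A o o ≠ 0
  · obtain ⟨o, ho⟩ := h
    obtain ⟨c, hc⟩ := exists_sq (A o o)⁻¹
    refine ⟨fun u => A u o * c, fun u v => ?_⟩
    have := h2 u o v o
    rw [hs o v] at this
    have e : A u o * c * (A v o * c) = A u o * A v o * (c * c) := by ring
    rw [e, hc]
    field_simp
    linear_combination this
  · push Not at h
    refine ⟨0, fun u v => ?_⟩
    have := h2 u v u v
    rw [h u, hs v u] at this
    have h3 : A u v * A u v = 0 := by linear_combination -this
    simpa using h3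

theorem gram2 {V : Type*} (A : V → V → ℂ) (hs : ∀ u v, A u v = A v u)
    (h3 : ∀ u1 u2 u3 v1 v2 v3, A u1 v1 * (A u2 v2 * A u3 v3 - A u2 v3 * A u3 v2)
      - A u1 v2 * (A u2 v1 * A u3 v3 - A u2 v3 * A u3 v1)
      + A u1 v3 * (A u2 v1 * A u3 v2 - A u2 v2 * A u3 v1) = 0) :
    ∃ a b : V → ℂ, ∀ u v, A u v = a u * a v + b u * b v := by
  by_cases h : ∃ o, A o o ≠ 0
  · obtain ⟨o, ho⟩ := h
    obtain ⟨c, hc⟩ := exists_sq (A o o)⁻¹
    obtain ⟨b, hb⟩ := gram1 (fun u v => A u v - A u o * A v o * (A o o)⁻¹)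
      (fun u v => by rw [hs u v]; ring) (fun u1 u2 v1 v2 => by
        have := h3 o u1 u2 o v1 v2
        rw [hs o v1, hs o v2] at this
        field_simp
        linear_combination (A o o) * this)
    refine ⟨fun u => A u o * c, b, fun u v => ?_⟩
    have e : A u o * c * (A v o * c) = A u o * A v o * (c * c) := by ring
    rw [e, hc, ← hb]
    ring
  · push Not at h
    by_cases h' : ∃ x y, A x y ≠ 0
    · obtain ⟨x, y, hxy⟩ := h'
      obtain ⟨c, hc⟩ := exists_sq (2 * A x y)⁻¹
      obtain ⟨c', hc'⟩ := exists_sq (-(2 * A x y)⁻¹)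
      refine ⟨fun u => (A u x + A u y) * c, fun u => (A u x - A u y) * c', fun u v => ?_⟩
      have := h3 x y u x y v
      rw [h x, h y, hs y x, hs x v, hs y v] at this
      have e : (A u x + A u y) * c * ((A v x + A v y) * c) +
          (A u x - A u y) * c' * ((A v x - A v y) * c') =
          (A u x + A u y) * (A v x + A v y) * (c * c) +
          (A u x - A u y) * (A v x - A v y) * (c' * c') := by ring
      rw [e, hc, hc']
      field_simp
      apply mul_left_cancel₀ hxy
      linear_combination (-2) * this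
    · push Not at h'
      exact ⟨0, 0, fun u v => by simp [h']⟩

variable {V : Type}

/-- squared distance polynomial -/
noncomputable def dd (u v : V) : MvPolynomial (V × Fin 2) ℚ :=
  ∑ k : Fin 2, (X (u, k) - X (v, k)) ^ 2

/-- the algebra generated by all squared distances -/
noncomputable def TT (V : Type) : Subalgebra ℚ (MvPolynomial (V × Fin 2) ℚ) :=
  Algebra.adjoin ℚ (Set.range fun z : V × V => dd z.1 z.2)

noncomputable def dT (u v : V) : TT V := ⟨dd u v, Algebra.subset_adjoin ⟨(u, v), rfl⟩⟩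

theorem realise (φ : TT V →+* ℂ) : ∃ r : V → Fin 2 → ℂ, ∀ u v,
    ∑ k : Fin 2, (r u k - r v k) ^ 2 = φ (dT u v) := by
  rcases isEmpty_or_nonempty V with hV | ⟨⟨o⟩⟩
  · exact ⟨0, fun u => isEmptyElim u⟩
  let g : V → V → TT V := fun u v => dT u o + dT v o - dT u v
  have hg : ∀ u v, (g u v : MvPolynomial (V × Fin 2) ℚ) =
      2 * ((X (u, 0) - X (o, 0)) * (X (v, 0) - X (o, 0)) +
        (X (u, 1) - X (o, 1)) * (X (v, 1) - X (o, 1))) := by
    intro u v
    simp only [g, dT, dd, Fin.sum_univ_two, Subalgebra.coe_sub, Subalgebra.coe_add]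
    ring
  obtain ⟨a, b, hab⟩ := gram2 (fun u v => φ (g u v))
    (fun u v => by
      congr 1
      apply Subtype.ext
      rw [hg, hg]
      ring)
    (fun u1 u2 u3 v1 v2 v3 => by
      simp only [← map_mul, ← map_sub, ← map_add]
      rw [← map_zero φ]
      congr 1
      apply Subtype.ext
      simp only [Subalgebra.coe_sub, Subalgebra.coe_add, Subalgebra.coe_mul, hg,
        Subalgebra.coe_zero]
      ring)
  obtain ⟨c, hc⟩ := exists_sq (2⁻¹ : ℂ)
  refine ⟨fun u => ![a u * c, b u * c], fun u v => ?_⟩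
  have e : dT u v + dT u v = g u u + g v v - g u v - g u v := by
    apply Subtype.ext
    simp only [Subalgebra.coe_sub, Subalgebra.coe_add, hg, dT, dd, Fin.sum_univ_two]
    ring
  have e2 := congrArg φ e
  simp only [map_add, map_sub, hab] at e2
  simp only [Fin.sum_univ_two, Matrix.cons_val_zero, Matrix.cons_val_one]
  linear_combination ((a u - a v) ^ 2 + (b u - b v) ^ 2) * hc - 2⁻¹ * e2

theorem hom_ext {φ ψ : TT V →+* ℂ} (h : ∀ u v, φ (dT u v) = ψ (dT u v)) : φ = ψ := by
  ext ⟨x, hx⟩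
  induction hx using Algebra.adjoin_induction with
  | mem x hx =>
    obtain ⟨z, rfl⟩ := hx
    exact h z.1 z.2
  | algebraMap c =>
    have : (φ.comp (algebraMap ℚ (TT V))) = ψ.comp (algebraMap ℚ (TT V)) := Subsingleton.elim _ _
    exact DFunLike.congr_fun this c
  | add x y hx hy h1 h2 =>
    have : (⟨x + y, Subalgebra.add_mem _ hx hy⟩ : TT V) = ⟨x, hx⟩ + ⟨y, hy⟩ := rfl
    rw [this, map_add, map_add, h1, h2]
  | mul x y hx hy h1 h2 =>
    have : (⟨x * y, Subalgebra.mul_mem _ hx hy⟩ : TT V) = ⟨x, hx⟩ * ⟨y, hy⟩ := rfl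
    rw [this, map_mul, map_mul, h1, h2]

noncomputable def ev (q : V → Fin 2 → ℂ) : TT V →+* ℂ :=
  (aeval (R := ℚ) fun c : V × Fin 2 => q c.1 c.2).toRingHom.comp (TT V).val.toRingHom

theorem ev_dT (q : V → Fin 2 → ℂ) (u v : V) :
    ev q (dT u v) = ∑ k : Fin 2, (q u k - q v k) ^ 2 := by
  simp [ev, dT, dd]

def Th (φ : TT V →+* ℂ) : Set (V → Fin 2 → ℂ) :=
  {s | ∀ u v, ∑ k : Fin 2, (s u k - s v k) ^ 2 = φ (dT u v)}

theorem Th_inj : Function.Injective (Th (V := V)) := by
  intro φ ψ h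
  obtain ⟨r, hr⟩ := realise φ
  have h1 : r ∈ Th φ := hr
  rw [h] at h1
  exact hom_ext fun u v => (hr u v).symm.trans (h1 u v)

theorem classes_eq (G : SimpleGraph V) (q : V → Fin 2 → ℂ) :
    {K : Set (V → Fin 2 → ℂ) | ∃ r : V → Fin 2 → ℂ,
      (∀ u v, G.Adj u v →
        ∑ k : Fin 2, (r u k - r v k) ^ 2 = ∑ k : Fin 2, (q u k - q v k) ^ 2) ∧
      K = {s | ∀ u v,
        ∑ k : Fin 2, (s u k - s v k) ^ 2 = ∑ k : Fin 2, (r u k - r v k) ^ 2}} =
    Th '' {φ | ∀ u v, G.Adj u v → φ (dT u v) = ev q (dT u v)} := by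
  ext K
  constructor
  · rintro ⟨r, h1, rfl⟩
    refine ⟨ev r, fun u v h => by rw [ev_dT, ev_dT, h1 u v h], ?_⟩
    simp only [Th, ev_dT]
  · rintro ⟨φ, h1, rfl⟩
    obtain ⟨r, hr⟩ := realise φ
    refine ⟨r, fun u v h => by rw [hr, h1 u v h, ev_dT], ?_⟩
    simp only [Th, hr]

theorem dT_symm (u v : V) : dT u v = dT v u := by
  apply Subtype.ext
  simp only [dT, dd, Fin.sum_univ_two]
  ring

theorem edges_indep [Fintype V] (G : SimpleGraph V)
    (hG : ∀ S : Finset V, 2 ≤ S.card → {e ∈ G.edgeSet | ∀ v ∈ e, v ∈ S}.ncard + 3 ≤ 2 * S.card) :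
    ∃ (n : ℕ) (a b : Fin n → V), (∀ i, G.Adj (a i) (b i)) ∧
      (∀ u v, G.Adj u v → ∃ i, dT u v = dT (a i) (b i)) ∧
      (AlgebraicIndependent ℚ fun i => dd (a i) (b i)) ∧ G.edgeSet.ncard = n := by
  classical
  let I : Finset (Finset V) := G.edgeFinset.image Sym2.toFinset
  have hI : ∀ e ∈ I, ∃ a b, G.Adj a b ∧ e = {a, b} := by
    intro e he
    obtain ⟨z, hz, rfl⟩ := Finset.mem_image.1 he
    induction z using Sym2.ind with
    | _ a b => exact ⟨a, b, by simpa using hz, by ext; simp⟩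
  have hP : H598R2.Cnt.Pairs I := by
    intro e he
    obtain ⟨a, b, h, rfl⟩ := hI e he
    exact Finset.card_pair h.ne
  have hS : H598R2.Cnt.Sp I := by
    intro S hS
    refine le_trans (Nat.add_le_add_right ?_ 3) (hG S hS)
    have e1 : {e ∈ G.edgeSet | ∀ v ∈ e, v ∈ S} =
        ((G.edgeFinset.filter fun e => ∀ v ∈ e, v ∈ S : Finset (Sym2 V)) : Set (Sym2 V)) := by
      ext e
      simp
    rw [e1, Set.ncard_coe_finset]
    refine le_trans (Finset.card_le_card ?_) (Finset.card_image_le (f := Sym2.toFinset))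
    intro e he
    obtain ⟨h1, h2⟩ := Finset.mem_filter.1 he
    obtain ⟨z, hz, rfl⟩ := Finset.mem_image.1 h1
    exact Finset.mem_image.2 ⟨z, Finset.mem_filter.2 ⟨hz, fun v hv => h2 (by simpa using hv)⟩, rfl⟩
  obtain ⟨p, hp⟩ := H632R2.Laman.indep_of_sp hP hS
  rw [H632R2.Laman.indep_iff_det, H632R2.Laman.det_eq] at hp
  have hdet : (H632R2.Laman.pmat I * (H632R2.Laman.pmat I).transpose).det ≠ 0 := by
    intro h
    apply hp
    rw [h, map_zero]
  have hI' : ∀ e : I, ∃ a b, G.Adj a b ∧ e.1 = {a, b} := fun e => hI e.1 e.2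
  choose a b hab using hI'
  let σ : Fin I.card ≃ I := I.equivFin.symm
  refine ⟨I.card, fun i => a (σ i), fun i => b (σ i), fun i => (hab (σ i)).1, ?_, ?_, ?_⟩
  · intro u v h
    have hm : ({u, v} : Finset V) ∈ I :=
      Finset.mem_image.2 ⟨s(u, v), by simpa using h, by ext; simp⟩
    refine ⟨σ.symm ⟨_, hm⟩, ?_⟩
    simp only [Equiv.apply_symm_apply]
    have h1 := (hab ⟨_, hm⟩).2
    generalize a ⟨_, hm⟩ = x at h1
    generalize b ⟨_, hm⟩ = y at h1
    have hu : u ∈ ({x, y} : Finset V) := by rw [← h1]; simp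
    have hv : v ∈ ({x, y} : Finset V) := by rw [← h1]; simp
    have huv := h.ne
    simp only [Finset.mem_insert, Finset.mem_singleton] at hu hv
    rcases hu with hu | hu <;> rcases hv with hv | hv
    · exact absurd (hu.trans hv.symm) huv
    · rw [← hu, ← hv]
    · rw [← hu, ← hv, dT_symm]
    · exact absurd (hu.trans hv.symm) huv
  · let M := H632R2.Laman.pmat I
    have hM : ∀ (e : I) (c : V × Fin 2), pderiv c (dd (a e) (b e)) = 2 * M e c := by
      rintro e ⟨w, k⟩
      have h1 := (hab e).2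
      have h2 := (hab e).1.ne
      simp only [M, H632R2.Laman.pmat]
      generalize a e = x at h1 h2
      generalize b e = y at h1 h2
      rw [h1, Finset.sum_pair h2]
      simp only [dd, Fin.sum_univ_two, map_add, Derivation.leibniz_pow, map_sub, pderiv_X,
        Finset.mem_insert, Finset.mem_singleton, Pi.single_apply, Prod.mk.injEq]
      by_cases hx : w = x
      · subst hx
        have hy : ¬ y = w := fun h => h2 h.symm
        fin_cases k <;> simp [hy]
      · by_cases hy : w = y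
        · subst hy
          fin_cases k <;> simp [h2] <;> ring
        · have hx' : ¬ x = w := fun h => hx h.symm
          have hy' : ¬ y = w := fun h => hy h.symm
          simp [hx, hy, hx', hy']
    refine H626R2.algInd_of_det (fun j => ∑ c, M (σ j) c • pderiv c) _ ?_
    have e : (Matrix.of fun i j : Fin I.card =>
        (∑ c, M (σ j) c • pderiv (R := ℚ) c) (dd (a (σ i)) (b (σ i)))) =
        ((2 : MvPolynomial (V × Fin 2) ℚ) • (M * M.transpose)).submatrix σ σ := by
      ext1 i j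
      simp only [Matrix.of_apply, Matrix.submatrix_apply, Matrix.smul_apply, Matrix.mul_apply,
        Matrix.transpose_apply, smul_eq_mul, Finset.mul_sum]
      have hs : ∀ (s : Finset (V × Fin 2))
          (D : V × Fin 2 → Derivation ℚ (MvPolynomial (V × Fin 2) ℚ) (MvPolynomial (V × Fin 2) ℚ))
          (x : MvPolynomial (V × Fin 2) ℚ), (∑ c ∈ s, D c) x = ∑ c ∈ s, D c x := by
        intro s D x
        induction s using Finset.induction_on with
        | empty => simp
        | insert c s hc ih => rw [Finset.sum_insert hc, Finset.sum_insert hc, Derivation.add_apply, ih]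
      rw [hs]
      refine Finset.sum_congr rfl fun c _ => ?_
      rw [Derivation.smul_apply, hM, smul_eq_mul]
      ring
    rw [e, Matrix.det_submatrix_equiv_self, Matrix.det_smul]
    exact mul_ne_zero (pow_ne_zero _ two_ne_zero) hdet
  · rw [Finset.card_image_of_injective, ← SimpleGraph.coe_edgeFinset, Set.ncard_coe_finset]
    intro x y h
    ext v
    rw [← Sym2.mem_toFinset, ← Sym2.mem_toFinset, h]

theorem main [Fintype V] (G : SimpleGraph V)
    (hG : ∀ S : Finset V, 2 ≤ S.card → {e ∈ G.edgeSet | ∀ v ∈ e, v ∈ S}.ncard + 3 ≤ 2 * S.card)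
    (p q : V → Fin 2 → ℂ) (hp : AlgebraicIndependent ℚ (fun x : V × Fin 2 => p x.1 x.2))
    (hq : {φ : TT V →+* ℂ | ∀ u v, G.Adj u v → φ (dT u v) = ev q (dT u v)}.Finite) :
    {φ : TT V →+* ℂ | ∀ u v, G.Adj u v → φ (dT u v) = ev q (dT u v)}.encard ≤
      {φ : TT V →+* ℂ | ∀ u v, G.Adj u v → φ (dT u v) = ev p (dT u v)}.encard := by
  obtain ⟨n, a, b, h1, h2, h3, -⟩ := edges_indep G hG
  let f : MvPolynomial (Fin n) ℚ →ₐ[ℚ] TT V := aeval fun i => dT (a i) (b i)
  have hf : Function.Injective f := by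
    have e : (TT V).val.comp f = aeval fun i => dd (a i) (b i) := by
      ext1 i
      simp [f, dT]
    have h4 : Function.Injective ((TT V).val.comp f) := by rw [e]; exact h3
    exact Function.Injective.of_comp (f := (TT V).val) h4
  let := f.toRingHom.toAlgebra
  have : IsScalarTower ℚ (MvPolynomial (Fin n) ℚ) (TT V) :=
    .of_algebraMap_eq fun x => (f.commutes x).symm
  have : FaithfulSMul (MvPolynomial (Fin n) ℚ) (TT V) :=
    (faithfulSMul_iff_algebraMap_injective _ _).2 hf
  have : Algebra.FiniteType ℚ (TT V) := Algebra.FiniteType.adjoin_of_finite (Set.finite_range _)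
  have : Algebra.FiniteType (MvPolynomial (Fin n) ℚ) (TT V) :=
    Algebra.FiniteType.of_restrictScalars_finiteType ℚ _ _
  have e : ∀ z : V → Fin 2 → ℂ,
      {φ : TT V →+* ℂ | ∀ u v, G.Adj u v → φ (dT u v) = ev z (dT u v)} =
      {φ : TT V →+* ℂ | φ.comp (algebraMap (MvPolynomial (Fin n) ℚ) (TT V)) =
        (ev z).comp (algebraMap (MvPolynomial (Fin n) ℚ) (TT V))} := by
    intro z
    have hX : ∀ i, algebraMap (MvPolynomial (Fin n) ℚ) (TT V) (X i) = dT (a i) (b i) :=
      fun i => aeval_X _ _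
    ext φ
    constructor
    · intro h
      refine MvPolynomial.ringHom_ext' (Subsingleton.elim _ _) fun i => ?_
      simp only [RingHom.comp_apply, hX]
      exact h _ _ (h1 i)
    · intro h u v huv
      obtain ⟨i, hi⟩ := h2 u v huv
      have := DFunLike.congr_fun h (X i)
      simp only [RingHom.comp_apply, hX] at this
      rw [hi, this]
  rw [e] at hq
  rw [e, e]
  refine fibre_le _ _ ℂ _ _ ?_ hq
  have h5 : Function.Injective (aeval (R := ℚ) fun c : V × Fin 2 => p c.1 c.2) := hp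
  exact (h5.comp Subtype.val_injective).comp hf

end Pool.Agent.H245Z.Zm
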