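import Pool.Agent.H245Z.ZmB

set_option autoImplicit false

namespace Pool.Agent.H245Z.Zm

open Polynomial

variable {V : Type}

theorem alg_gen (A : Subalgebra ℚ (TT V)) (h : ∀ u v : V, IsAlgebraic A (dT u v)) :
    Algebra.IsAlgebraic A (TT V) := by
  refine ⟨fun ⟨x, hx⟩ => ?_⟩
  induction hx using Algebra.adjoin_induction with
  | mem x hx =>
    obtain ⟨z, rfl⟩ := hx
    exact h z.1 z.2
  | algebraMap c => exact isAlgebraic_algebraMap (algebraMap ℚ A c)
  | add x y hx hy h1 h2 => exact h1.add h2
  | mul x y hx hy h1 h2 => exact h1.mul h2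

theorem dT_self (u : V) : dT u u = 0 := by
  apply Subtype.ext
  simp [dT, dd]

theorem dT_ne {u v : V} (h : u ≠ v) : dT u v ≠ 0 := by
  classical
  intro h0
  have := ev_dT (fun w _ => if w = u then 1 else 0) u v
  rw [h0, map_zero] at this
  simp [h.symm] at this

theorem alg_two (A : Subalgebra ℚ (TT V)) {o o' : V} (ho : o ≠ o') (h1 : ∀ v, dT o v ∈ A)
    (h2 : ∀ v, dT o' v ∈ A) (u v : V) : IsAlgebraic A (dT u v) := by
  let a : A := ⟨_, h1 o'⟩
  let b : A := ⟨_, h1 u⟩
  let c : A := ⟨_, h1 v⟩
  let e : A := ⟨_, h2 u⟩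
  let f : A := ⟨_, h2 v⟩
  have hy : IsAlgebraic A (dT o u + dT o v - dT u v) := by
    refine ⟨C (-(a + a)) * X ^ 2 + C (((a + b - e) + (a + b - e)) * (a + c - f)) * X +
      C ((a + a) * (b + b) * (c + c) - (a + b - e) ^ 2 * (c + c) - (a + c - f) ^ 2 * (b + b)),
      fun h => ?_, ?_⟩
    · have h3 := congrArg (fun P => coeff P 2) h
      simp only [coeff_add, coeff_C_mul_X_pow, coeff_C_mul_X, coeff_C, coeff_zero] at h3
      norm_num at h3
      have h4 : dT o o' + dT o o' = 0 := by
        have := congrArg Subtype.val h3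
        simp only [a, Subalgebra.coe_add, Subalgebra.coe_neg, Subalgebra.coe_zero] at this
        linear_combination -this
      exact dT_ne ho (add_self_eq_zero.1 h4)
    · simp only [map_add, map_mul, aeval_C, aeval_X, map_pow, map_sub, map_neg]
      apply Subtype.ext
      simp only [a, b, c, e, f, Subalgebra.algebraMap_def, Algebra.algebraMap_self,
        RingHom.id_apply, Subalgebra.coe_add, Subalgebra.coe_sub, Subalgebra.coe_mul,
        Subalgebra.coe_neg, Subalgebra.coe_pow, Subalgebra.coe_zero, dT, dd, Fin.sum_univ_two]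
      ring
  have e1 : dT u v = algebraMap A (TT V) (b + c) - (dT o u + dT o v - dT u v) := by
    simp [b, c]
  rw [e1]
  exact (isAlgebraic_algebraMap _).sub hy

theorem trdeg_le [Fintype V] (h : 2 ≤ Fintype.card V) :
    Algebra.trdeg ℚ (TT V) ≤ ((2 * Fintype.card V - 3 : ℕ) : Cardinal) := by
  classical
  obtain ⟨o, o', ho⟩ := Fintype.exists_pair_of_one_lt_card (α := V) (by omega)
  let s : Finset (TT V) := (Finset.univ.erase o).image (dT o) ∪
    ((Finset.univ.erase o).erase o').image (dT o')
  have h1 : ∀ v, dT o v ∈ Algebra.adjoin ℚ (s : Set (TT V)) := by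
    intro v
    by_cases hv : v = o
    · rw [hv, dT_self]; exact zero_mem _
    · exact Algebra.subset_adjoin (Finset.mem_coe.2 (Finset.mem_union_left _
        (Finset.mem_image.2 ⟨v, by simpa using hv, rfl⟩)))
  have h2 : ∀ v, dT o' v ∈ Algebra.adjoin ℚ (s : Set (TT V)) := by
    intro v
    by_cases hv : v = o
    · rw [hv, dT_symm]; exact h1 _
    · by_cases hv' : v = o'
      · rw [hv', dT_self]; exact zero_mem _
      · exact Algebra.subset_adjoin (Finset.mem_coe.2 (Finset.mem_union_right _
          (Finset.mem_image.2 ⟨v, by simp [hv, hv'], rfl⟩)))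
  have := alg_gen _ (alg_two _ ho h1 h2)
  refine (Algebra.IsAlgebraic.trdeg_le_cardinalMk ℚ (s : Set (TT V))).trans ?_
  rw [Finset.coe_sort_coe, Cardinal.mk_coe_finset, Nat.cast_le]
  have a1 := Finset.card_union_le ((Finset.univ.erase o).image (dT o))
    (((Finset.univ.erase o).erase o').image (dT o'))
  have a2 : ((Finset.univ.erase o).image (dT o)).card ≤ (Finset.univ.erase o).card :=
    Finset.card_image_le
  have a3 : (((Finset.univ.erase o).erase o').image (dT o')).card ≤
    ((Finset.univ.erase o).erase o').card := Finset.card_image_le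
  rw [Finset.card_erase_of_mem (by simpa using ho.symm)] at a3
  rw [Finset.card_erase_of_mem (Finset.mem_univ _), Finset.card_univ] at a2 a3
  simp only [s]
  omega

theorem fib_finite [Fintype V] (G : SimpleGraph V)
    (hG : ∀ S : Finset V, 2 ≤ S.card → {e ∈ G.edgeSet | ∀ v ∈ e, v ∈ S}.ncard + 3 ≤ 2 * S.card)
    (hE : G.edgeSet.ncard = 2 * Fintype.card V - 3)
    (p : V → Fin 2 → ℂ) (hp : AlgebraicIndependent ℚ (fun x : V × Fin 2 => p x.1 x.2)) :
    {φ : TT V →+* ℂ | ∀ u v, G.Adj u v → φ (dT u v) = ev p (dT u v)}.Finite := by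
  by_cases hV : 2 ≤ Fintype.card V
  swap
  · have : Subsingleton V := Fintype.card_le_one_iff_subsingleton.1 (by omega)
    refine Set.Subsingleton.finite fun φ _ ψ _ => hom_ext fun u v => ?_
    rw [Subsingleton.elim u v, dT_self, map_zero, map_zero]
  obtain ⟨n, a, b, h1, h2, h3, h4⟩ := edges_indep G hG
  let x : Fin n → TT V := fun i => dT (a i) (b i)
  have hx : AlgebraicIndependent ℚ x := AlgebraicIndependent.of_comp (TT V).val h3
  have hb : IsTranscendenceBasis ℚ x := hx.isTranscendenceBasis_of_trdeg_le_of_finite (by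
    refine (trdeg_le hV).trans (le_of_eq ?_)
    rw [← hE, h4]
    simp)
  have halg := hb.isAlgebraic
  let A := Algebra.adjoin ℚ (Set.range x)
  choose P hP1 hP2 using fun z : V × V => halg.isAlgebraic (dT z.1 z.2)
  let χ : A →+* ℂ := (ev p).comp (algebraMap A (TT V))
  have hχ : Function.Injective χ := by
    have h5 : Function.Injective
      (MvPolynomial.aeval (R := ℚ) fun c : V × Fin 2 => p c.1 c.2) := hp
    exact (h5.comp Subtype.val_injective).comp Subtype.val_injective
  refine Set.Finite.of_finite_image (f := fun φ (z : V × V) => φ (dT z.1 z.2))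
    ((Set.Finite.pi' fun z : V × V =>
      (Polynomial.finite_setOfPred_isRoot
        ((Polynomial.map_ne_zero_iff hχ).2 (hP1 z)))).subset ?_) ?_
  · rintro _ ⟨φ, hφ, rfl⟩ z
    have e : φ.comp (algebraMap A (TT V)) = χ := by
      ext ⟨y, hy⟩
      change φ y = ev p y
      induction hy using Algebra.adjoin_induction with
      | mem y hy =>
        obtain ⟨i, rfl⟩ := hy
        exact hφ _ _ (h1 i)
      | algebraMap c =>
        have : (φ.comp (algebraMap ℚ (TT V))) = (ev p).comp (algebraMap ℚ (TT V)) :=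
          Subsingleton.elim _ _
        exact DFunLike.congr_fun this c
      | add y y' hy hy' i1 i2 => rw [map_add, map_add, i1, i2]
      | mul y y' hy hy' i1 i2 => rw [map_mul, map_mul, i1, i2]
    simp only [Set.mem_ofPred_eq, IsRoot.def]
    rw [eval_map, ← e, ← hom_eval₂, ← aeval_def, hP2, map_zero]
  · intro φ _ ψ _ h
    exact hom_ext fun u v => congrFun h (u, v)

end Pool.Agent.H245Z.Zm
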